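import Pool.Agent.ETCMR.Fin

/-!
# Structures with a rank one element, any `-1`: conclusion
-/

set_option autoImplicit false
set_option linter.unusedSimpArgs false
set_option linter.unnecessarySeqFocus false
set_option linter.unusedSectionVars false
set_option linter.unusedVariables false

namespace Pool.Agent.ETCMR

open QS
open Pool.Agent.Helper58.PLine (QData)
open Pool.Agent.ETCP
open Pool.Agent.ETCR (N Z Wp not_Z_iff XC XCs SN mem_SN sat_N)
open ETC (D)

/-- an element with `Q_t = {0, c}` and `q(t, t) = 0` -/
theorem XC_one {V Q : Type} [AddCommGroup V] [Module (ZMod 2) V] {S : QData V Q} {c : Q}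
    (hc : c ≠ S.z) {t : V} (h : XC S c t) (htt : C S t t) {v : V}
    (hv : S.q t v = c) : ∃ f, One S t c f := by
  classical
  have hz : ∀ v, ¬ S.q t v = c → S.q t v = S.z := fun v hn => (h v).resolve_right hn
  refine ⟨{ toFun := fun v => if S.q t v = c then 1 else 0
            map_add' := ?_
            map_smul' := ?_ }, ?_, hc, ?_, ?_, ?_⟩
  · intro a b
    by_cases ha : S.q t a = c <;> by_cases hb : S.q t b = c
    · have : S.q t (a + b) = S.z := (S.add t a b).1 (ha.trans hb.symm)
      rw [if_pos ha, if_pos hb, if_neg (by rw [this]; exact hc.symm)]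
      decide
    · have : S.q t (a + b) = S.q t a := by
        apply q_eq
        exact C.of_eq (S := S) (hz b hb) rfl (eo (by abel_nf <;> simp only [ch2, ch3, ch4, ch5, ch6, add_zero, zero_add]))
      rw [if_pos ha, if_neg hb, if_pos (this.trans ha), add_zero]
    · have : S.q t (a + b) = S.q t b := by
        apply q_eq
        exact C.of_eq (S := S) (hz a ha) rfl (eo (by abel_nf <;> simp only [ch2, ch3, ch4, ch5, ch6, add_zero, zero_add]))
      rw [if_neg ha, if_pos hb, if_pos (this.trans hb), zero_add]
    · have : S.q t (a + b) = S.z := C.add (S := S) (hz a ha) (hz b hb)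
      rw [if_neg ha, if_neg hb, if_neg (by rw [this]; exact hc.symm), add_zero]
  · intro r a
    rcases ETC.zm r with rfl | rfl
    · have : S.q t ((0 : ZMod 2) • a) = S.z := by rw [zero_smul, S.q_zero]
      rw [if_neg (by rw [this]; exact hc.symm)]
      simp
    · simp
  · show (if S.q t t = c then (1 : ZMod 2) else 0) = 0
    rw [if_neg]
    intro e
    exact hc (e.symm.trans htt)
  · intro a ha
    by_contra hne
    have : S.q t a = c := (h a).resolve_left hne
    have h1 : (if S.q t a = c then (1 : ZMod 2) else 0) = 0 := ha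
    rw [if_pos this] at h1
    exact one_ne_zero h1
  · intro a ha
    by_contra hne
    have h1 : (if S.q t a = c then (1 : ZMod 2) else 0) = 1 := ha
    rw [if_neg hne] at h1
    exact zero_ne_one h1
  · exact ⟨v, if_pos hv⟩

/-- the noncommutative case -/
theorem case1 (S : QStruct) [Finite S.G]
    (hnd : ∀ a, (∀ b, S.q a b = S.zero) → a = 1) {c : S.Q} (hc : c ≠ S.zero)
    {t t' : Additive S.G} (ht : XC (ETC.toData S) c t) (ht' : XC (ETC.toData S) c t')
    (hq : ¬ C (ETC.toData S) t t') : IsProd S ∨ Nat.card S.Q = 2 := by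
  have hfin : Finite (Additive S.G) := (inferInstance : Finite S.G)
  have hq' : (ETC.toData S).q t t' = c := (ht t').resolve_left hq
  have hnd' : ∀ x : Additive S.G, (∀ y, C (ETC.toData S) x y) → x = 0 := fun x hx =>
    hnd (Additive.toMul x) (fun b => hx (Additive.ofMul b))
  have hcz : c ≠ (ETC.toData S).z := hc
  have ht0 : t ≠ 0 := by
    rintro rfl
    exact hq (C.zero' t')
  obtain ⟨h1, h2, h3⟩ := noncomm hnd' hcz ht ht' hq'
  by_cases hW : ∀ w ∈ NS hcz ht ht' hq', w = 0
  · right
    rw [Nat.card_eq_two_iff]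
    refine ⟨S.zero, c, hc.symm, ?_⟩
    rw [Set.eq_univ_iff_forall]
    intro β
    obtain ⟨a, b, hab⟩ := S.surj β
    have h4 := two_vals hnd' hcz ht ht' hq' hW (Additive.ofMul a)
    rw [Set.mem_insert_iff, Set.mem_singleton_iff, ← hab]
    exact h4 (Additive.ofMul b)
  · left
    push Not at hW
    exact prod_of_sub S h1 h2 h3 ⟨t, ht, ht0⟩ hW

theorem elem_of_prod (S : QStruct) [Finite S.G]
    (hT : ∀ T : QStruct, Finite T.G → Nat.card T.G < Nat.card S.G → ElemType T)
    (h : IsProd S) : ElemType S := by
  have hpos : 0 < Nat.card S.G := Nat.card_pos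
  obtain ⟨A, B, hA2, hB2, hi⟩ := h
  have hc : Nat.card A.G * Nat.card B.G = Nat.card S.G := by
    obtain ⟨φ, -, -⟩ := hi
    rw [← Nat.card_congr φ.toEquiv]
    show _ = Nat.card (A.G × B.G)
    rw [Nat.card_prod]
  have hfA : Finite A.G := Nat.finite_of_card_ne_zero (by omega)
  have hfB : Finite B.G := Nat.finite_of_card_ne_zero (by omega)
  refine ElemType.iso _ S hi (ElemType.prod A B (hT A hfA ?_) (hT B hfB ?_))
  · nlinarith
  · nlinarith

theorem elem_of_ext (S : QStruct) [Finite S.G]
    (hT : ∀ T : QStruct, Finite T.G → Nat.card T.G < Nat.card S.G → ElemType T)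
    (h : IsExt S) : ElemType S := by
  have hpos : 0 < Nat.card S.G := Nat.card_pos
  obtain ⟨T, φ, h2, h3⟩ := h
  have hc : 2 * Nat.card T.G = Nat.card S.G := by
    rw [Nat.card_congr φ.toEquiv]
    show _ = Nat.card (T.G × Multiplicative (ZMod 2))
    rw [Nat.card_prod, Nat.card_eq_fintype_card (α := Multiplicative (ZMod 2)),
      Fintype.card_multiplicative, ZMod.card, mul_comm]
  have hf : Finite T.G := Nat.finite_of_card_ne_zero (by omega)
  refine ElemType.iso (QS.ext T) S ⟨φ.symm, ?_, ?_⟩ (ElemType.ext T (hT T hf (by omega)))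
  · rw [← h2, MulEquiv.symm_apply_apply]
  · intro a b c d
    have h4 := h3 (φ.symm a) (φ.symm b) (φ.symm c) (φ.symm d)
    simp only [MulEquiv.apply_symm_apply] at h4
    exact h4.symm

/-- nondegenerate structures with two quaternions -/
theorem elem_two (S : QStruct) [Finite S.G]
    (hT : ∀ T : QStruct, Finite T.G → Nat.card T.G < Nat.card S.G → ElemType T)
    (hnd : ∀ a, (∀ b, S.q a b = S.zero) → a = 1) (h2 : Nat.card S.Q = 2)
    (hx : ∃ x : S.G, x ≠ 1) : ElemType S := by
  by_cases h8 : 8 ≤ Nat.card S.G
  · exact ElemType.loc S inferInstance h8 hnd h2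
  by_cases hz : ∃ z : S.G, z ≠ 1 ∧ z ≠ S.neg
  · obtain ⟨z, hz1, hz2⟩ := hz
    apply elem_of_ext S hT
    obtain ⟨n, hn⟩ := ETCC.card_V_pow (S := S) ⊤
    have hn' : Nat.card S.G = 2 ^ n := by
      rw [← hn]
      exact (Subgroup.card_top).symm
    have h4 : Nat.card S.G ≤ 4 := by
      rw [hn'] at h8 ⊢
      have : n < 3 := by
        by_contra hno
        apply h8
        calc 8 = 2 ^ 3 := by norm_num
          _ ≤ 2 ^ n := Nat.pow_le_pow_right (by norm_num) (by omega)
      calc 2 ^ n ≤ 2 ^ 2 := Nat.pow_le_pow_right (by norm_num) (by omega)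
        _ = 4 := by norm_num
    have rig : ∀ z : S.G, z ≠ 1 → z ≠ S.neg → ETCC.Rig S z := by
      intro z hz1 hz2 u hu
      by_contra hno
      push Not at hno
      obtain ⟨hu1, hu2⟩ := hno
      have hnz : S.neg * z ≠ 1 := fun e => hz2 ((eq_iff_mul S _ _).2 e).symm
      have h3 : 3 ≤ Nat.card (ETCC.V S z) := by
        have := Fintype.ofFinite S.G
        classical
        have hsub : ({1, u, S.neg * z} : Finset S.G) ⊆
            (Finset.univ.filter (fun x => x ∈ ETCC.V S z)) := by
          intro x hx
          rw [Finset.mem_filter]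
          refine ⟨Finset.mem_univ _, ?_⟩
          rw [Finset.mem_insert, Finset.mem_insert, Finset.mem_singleton] at hx
          rcases hx with rfl | rfl | rfl
          · exact (ETCC.V S z).one_mem
          · exact hu
          · exact S.qs1 z
        have hc3 : ({1, u, S.neg * z} : Finset S.G).card = 3 := by
          rw [Finset.card_insert_of_notMem, Finset.card_insert_of_notMem, Finset.card_singleton]
          · rw [Finset.mem_singleton]; exact hu2
          · simp only [Finset.mem_insert, Finset.mem_singleton, not_or]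
            exact ⟨fun e => hu1 e.symm, fun e => hnz e.symm⟩
        have hcc : Nat.card (ETCC.V S z) = (Finset.univ.filter (fun x => x ∈ ETCC.V S z)).card := by
          rw [← Fintype.card_subtype, ← Nat.card_eq_fintype_card]
        rw [hcc, ← hc3]
        exact Finset.card_le_card hsub
      have hdvd : Nat.card (ETCC.V S z) ∣ Nat.card S.G := Subgroup.card_subgroup_dvd_card _
      have htop : ETCC.V S z = ⊤ := by
        apply Subgroup.eq_top_of_card_eq
        have hpos : 0 < Nat.card S.G := Nat.card_pos
        have hle := Nat.le_of_dvd hpos hdvd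
        obtain ⟨k, hk⟩ := hdvd
        have : k = 1 := by
          rcases k with _ | _ | k
          · omega
          · rfl
          · exfalso
            have : 3 * (k + 2) ≤ Nat.card S.G := by
              rw [hk]; exact Nat.mul_le_mul h3 le_rfl
            omega
        rw [hk, this, mul_one]
      apply hz1
      apply hnd
      intro b
      have : b ∈ ETCC.V S z := by rw [htop]; trivial
      exact this
    refine ETCC.ext_of_bir (z := z) ⟨hz1, hz2, rig z hz1 hz2, rig _ ?_ ?_⟩
    · exact fun e => hz2 ((eq_iff_mul S _ _).2 e).symm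
    · intro e
      exact hz1 (mul_eq_left.1 e)
  · push Not at hz
    obtain ⟨x, hx⟩ := hx
    have hxn := hz x hx
    have hn1 : S.neg ≠ 1 := by rw [← hxn]; exact hx
    have hall : ∀ y : S.G, y = 1 ∨ y = S.neg := by
      intro y
      by_cases h : y = 1
      · exact Or.inl h
      · exact Or.inr (hz y h)
    apply ElemType.L1 S
    · rw [Nat.card_eq_two_iff]
      refine ⟨1, S.neg, fun e => hn1 e.symm, ?_⟩
      rw [Set.eq_univ_iff_forall]
      intro y
      rw [Set.mem_insert_iff, Set.mem_singleton_iff]
      exact hall y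
    · exact hn1
    · intro h0
      apply hn1
      apply hnd
      intro b
      rcases hall b with rfl | rfl
      · exact S.q_one _
      · exact h0

theorem elem_of_rad (S : QStruct) [Finite S.G]
    (hT : ∀ T : QStruct, Finite T.G → Nat.card T.G < Nat.card S.G → ElemType T)
    {r : S.G} (hr : r ≠ 1) (hr0 : ∀ b, S.q r b = S.zero) : ElemType S := by
  have hpos : 0 < Nat.card S.G := Nat.card_pos
  obtain ⟨T, L, h1, h2, -, -, h3, h4⟩ := ETCM.rad_split S hr hr0
  have hfT : Finite T.G := Nat.finite_of_card_ne_zero (by omega)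
  have hL : ElemType L := by
    by_cases h : L.neg = 1
    · exact ElemType.L10 L h1 h h2
    · exact ElemType.L11 L h1 h h2
  exact ElemType.iso _ S h4 (ElemType.prod T L (hT T hfT (by omega)) hL)

/-- **RK1 for every `-1`**: a finite quaternionic structure with an element `x` such that `Q_x` has
exactly two elements is of elementary type, if all smaller structures are. -/
theorem rank_one (S : QStruct) [Finite S.G]
    (hT : ∀ T : QStruct, Finite T.G → Nat.card T.G < Nat.card S.G → ElemType T)
    {x : S.G} {c : S.Q} (hc : c ≠ S.zero) (hx : ∀ y, S.q x y = S.zero ∨ S.q x y = c)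
    (hy : ∃ y, S.q x y = c) : ElemType S := by
  obtain ⟨y, hy⟩ := hy
  have hx1 : x ≠ 1 := by
    rintro rfl
    apply hc
    rw [← hy, S.qs2, S.q_one]
  by_cases hnd : ∀ a, (∀ b, S.q a b = S.zero) → a = 1
  swap
  · push Not at hnd
    obtain ⟨r, hr0, hr⟩ := hnd
    exact elem_of_rad S hT hr hr0
  have hX : XC (ETC.toData S) c (Additive.ofMul x) := fun v => hx (Additive.toMul v)
  by_cases hcomm : ∀ t t', XC (ETC.toData S) c t → XC (ETC.toData S) c t' →
      C (ETC.toData S) t t'
  · obtain ⟨f, X⟩ := XC_one (S := ETC.toData S) hc hX (hcomm _ _ hX hX) (v := Additive.ofMul y) hy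
    rcases case2 S hT X hcomm with h | h
    · exact elem_of_ext S hT h
    · exact elem_of_prod S hT h
  · push Not at hcomm
    obtain ⟨t, t', ht, ht', hq⟩ := hcomm
    rcases case1 S hnd hc ht ht' hq with h | h
    · exact elem_of_prod S hT h
    · exact elem_two S hT hnd h ⟨x, hx1⟩

end Pool.Agent.ETCMR
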