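import Pool.Agent.ETCMR.Cls

/-!
# The transversal argument (helper50), in Lean (helper29)
-/

set_option autoImplicit false
set_option linter.unusedSimpArgs false
set_option linter.unnecessarySeqFocus false
set_option linter.unusedSectionVars false
set_option linter.unusedVariables false

namespace Pool.Agent.ETCMR

open Pool.Agent.Helper58.PLine (QData)
open Pool.Agent.ETCP
open Pool.Agent.ETCR (N Z Wp not_Z_iff F1 mem_F1 card_F1 sep2 card_inf_ker card_ann XC XCs SN mem_SN sat_N)
open ETC (D)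

variable {V Q : Type} [AddCommGroup V] [Module (ZMod 2) V] {S : QData V Q}

namespace One

variable {s : V} {c : Q} {f : V →ₗ[ZMod 2] ZMod 2} (X : One S s c f)

/-- `V_v + W0` -/
def U (v : V) : Submodule (ZMod 2) V := S.ann v ⊔ X.W0

theorem s_notMem_U {v : V} (hv : f v = 1) : s ∉ X.U v :=
  X.s_notMem.resolve_right (by rw [hv]; exact one_ne_zero)

theorem self_mem_U (v : V) : v + S.e ∈ X.U v :=
  Submodule.mem_sup_left (S.diag v)

theorem E_eq (v : V) : X.E v = X.U v ⊓ LinearMap.ker f := rfl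

theorem s_notMem_E {v : V} (hv : f v = 1) : s ∉ X.E v := fun h => X.s_notMem_U hv h.1

/-- `E_v + <s>` -/
def M (v : V) : Submodule (ZMod 2) V where
  carrier := {x | x ∈ X.E v ∨ x + s ∈ X.E v}
  add_mem' := by
    rintro a b (ha | ha) (hb | hb)
    · exact Or.inl (add_mem ha hb)
    · right
      have := add_mem ha hb
      rwa [show a + (b + s) = a + b + s by abel] at this
    · right
      have := add_mem ha hb
      rwa [show a + s + b = a + b + s by abel] at this
    · left
      have := add_mem ha hb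
      rwa [show a + s + (b + s) = a + b from (eo (by abel_nf <;> simp only [ch2, ch3, ch4, ch5, ch6, add_zero, zero_add]))] at this
  zero_mem' := Or.inl (zero_mem _)
  smul_mem' := by
    intro a x hx
    rcases ETC.zm a with rfl | rfl
    · rw [zero_smul]; exact Or.inl (zero_mem _)
    · rw [one_smul]; exact hx

theorem mem_M {v x : V} : x ∈ X.M v ↔ x ∈ X.E v ∨ x + s ∈ X.E v := Iff.rfl

theorem M_f {v x : V} (h : x ∈ X.M v) : f x = 0 := by
  rcases h with h | h
  · exact h.2
  · have : f (x + s) = 0 := h.2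
    rwa [map_add, X.fs, add_zero] at this

theorem card_M [Finite V] {v : V} (hv : f v = 1) : Nat.card (X.M v) = Nat.card (X.U v) := by
  obtain ⟨g, h1, h2⟩ := ETC.exists_dual_sep (X.s_notMem_E hv)
  have hs : s ∈ X.M v := Or.inr (by
    rw [ZModModule.add_self]; exact zero_mem _)
  rw [card_inf_ker (X.M v) g hs h1, card_inf_ker (X.U v) f (X.self_mem_U v)
    (by rw [map_add, hv, X.fe, add_zero])]
  have : (X.M v ⊓ LinearMap.ker g : Submodule (ZMod 2) V) =
      (X.U v ⊓ LinearMap.ker f : Submodule (ZMod 2) V) := by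
    ext x
    rw [Submodule.mem_inf, LinearMap.mem_ker, ← X.E_eq]
    constructor
    · rintro ⟨h | h, hg⟩
      · exact h
      · exfalso
        have := h2 _ h
        rw [map_add, hg, h1, zero_add] at this
        exact one_ne_zero this
    · intro h
      exact ⟨Or.inl h, h2 x h⟩
  rw [this]

theorem N_M {v x : V} (hv : f v = 1) (hx : x ∈ X.M v) (hN : N S c x) : x ∈ X.W0 := by
  rcases hx with h | h
  · exact X.N_E hv h (Or.inl rfl) hN
  · exact X.N_E hv h (Or.inr (eo (by abel_nf <;> simp only [ch2, ch3, ch4, ch5, ch6, add_zero, zero_add]))) hN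

section
variable [Fintype V]

/-- functionals vanishing on `V_v + W0` with value 1 at `s` -/
noncomputable def J (v : V) : Finset (D V) := F1 (X.U v) s

theorem mem_J {v : V} {ψ : D V} : ψ ∈ X.J v ↔ ψ s = 1 ∧ ∀ y ∈ X.U v, ψ y = 0 := mem_F1

theorem clique {v v' : V} {ψ : D V} (hv' : f v' = 1) (h : ψ ∈ X.J v) (h' : ψ ∈ X.J v') :
    N S c (v + v') := by
  intro y hy
  obtain ⟨t, h1, h2, h3⟩ := link (hy.trans (X.ne_s hv').symm)
  have h4 : C S v t := h3.of_eq (eo (by abel_nf <;> simp only [ch2, ch3, ch4, ch5, ch6, add_zero, zero_add])) rfl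
  have k1 := (X.mem_J.1 h).2 t (Submodule.mem_sup_left h4)
  have k2 := (X.mem_J.1 h').2 (s + t) (Submodule.mem_sup_left h2)
  rw [map_add, k1, (X.mem_J.1 h).1, add_zero] at k2
  exact one_ne_zero k2

open Classical in
/-- the complement of `ker f` -/
noncomputable def P (_X : One S s c f) : Finset V := Finset.univ.filter (fun v => f v = 1)

theorem mem_P {v : V} : v ∈ X.P ↔ f v = 1 := by
  classical
  unfold P
  rw [Finset.mem_filter]
  exact ⟨fun h => h.2, fun h => ⟨Finset.mem_univ _, h⟩⟩

theorem card_P : X.P.card * 2 = Fintype.card V := by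
  classical
  obtain ⟨v0, hv0⟩ := X.hf
  have h1 : X.P.card = (Finset.univ.filter (fun v => ¬ f v = 1)).card := by
    apply Finset.card_bij (fun v _ => v + v0)
    · intro v hv
      rw [Finset.mem_filter]
      refine ⟨Finset.mem_univ _, ?_⟩
      rw [map_add, X.mem_P.1 hv, hv0]
      decide
    · intro a _ b _ h
      exact add_right_cancel h
    · intro b hb
      refine ⟨b + v0, ?_, (eo (by abel_nf <;> simp only [ch2, ch3, ch4, ch5, ch6, add_zero, zero_add]))⟩
      rw [X.mem_P, map_add, (ETC.zm (f b)).resolve_right (Finset.mem_filter.1 hb).2, hv0, zero_add]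
  have h2 := Finset.card_filter_add_card_filter_not (s := (Finset.univ : Finset V))
    (fun v => f v = 1)
  have h3 : X.P.card = (Finset.univ.filter (fun v => f v = 1)).card := rfl
  rw [← h3, ← h1, Finset.card_univ] at h2
  omega

open Classical in
/-- all `v` outside `ker f` with `ψ` in some `J (v + w)`, `w ∈ W0` -/
noncomputable def Dt (ψ : D V) : Finset V := X.P.filter (fun v => ∃ w ∈ X.W0, ψ ∈ X.J (v + w))

theorem mem_Dt {ψ : D V} {v : V} : v ∈ X.Dt ψ ↔ f v = 1 ∧ ∃ w ∈ X.W0, ψ ∈ X.J (v + w) := by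
  classical
  unfold Dt
  rw [Finset.mem_filter, X.mem_P]

theorem Dt_N {ψ : D V} {d d' : V} (h : d ∈ X.Dt ψ) (h' : d' ∈ X.Dt ψ) : N S c (d + d') := by
  obtain ⟨h1, w, hw, h2⟩ := X.mem_Dt.1 h
  obtain ⟨h1', w', hw', h2'⟩ := X.mem_Dt.1 h'
  have hf' : f (d' + w') = 1 := by rw [map_add, h1', X.W0_f hw', add_zero]
  have h3 := X.clique hf' h2 h2'
  rw [show d + w + (d' + w') = d + d' + w + w' by abel, X.N_add_W0 hw', X.N_add_W0 hw] at h3
  exact h3

theorem pack_aux {ψ : D V} {v : V} (hv : f v = 1) {T : Finset V}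
    (hT : ∀ d ∈ X.Dt ψ, ∀ m ∈ X.M v, d + m ∈ T) :
    (X.Dt ψ).card * Nat.card (X.U v) ≤ T.card * Nat.card X.W0 := by
  classical
  let Mf : Finset V := Finset.univ.filter (fun x => x ∈ X.M v)
  have hMf : Mf.card = Nat.card (X.U v) := by
    rw [← X.card_M hv]
    show (Finset.univ.filter (fun x => x ∈ X.M v)).card = _
    rw [← Fintype.card_subtype, ← Nat.card_eq_fintype_card]
  have hmem : ∀ x, x ∈ Mf ↔ x ∈ X.M v := fun x => by
    show x ∈ Finset.univ.filter (fun x => x ∈ X.M v) ↔ _
    rw [Finset.mem_filter]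
    exact ⟨fun h => h.2, fun h => ⟨Finset.mem_univ _, h⟩⟩
  rw [← hMf, ← Finset.card_product, mul_comm]
  apply Finset.card_le_mul_card_image_of_maps_to (f := fun x : V × V => x.1 + x.2)
  · rintro ⟨d, m⟩ h
    rw [Finset.mem_product] at h
    exact hT d h.1 m ((hmem m).1 h.2)
  · intro u _
    by_cases hne : ((X.Dt ψ ×ˢ Mf).filter (fun x => x.1 + x.2 = u)).Nonempty
    · obtain ⟨⟨d0, m0⟩, h0⟩ := hne
      rw [Finset.mem_filter, Finset.mem_product] at h0
      have hW : Nat.card X.W0 = (Finset.univ.filter (fun x => x ∈ X.W0)).card := by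
        rw [← Fintype.card_subtype, ← Nat.card_eq_fintype_card]
      rw [hW]
      apply Finset.card_le_card_of_injOn (fun x : V × V => x.1 + d0)
      · rintro ⟨d, m⟩ h
        rw [Finset.mem_coe, Finset.mem_filter, Finset.mem_product] at h
        rw [Finset.mem_coe, Finset.mem_filter]
        refine ⟨Finset.mem_univ _, ?_⟩
        have h1 : N S c (d + d0) := X.Dt_N h.1.1 h0.1.1
        have h2 : d + d0 = m + m0 := by
          have e1 : d + m = d0 + m0 := h.2.trans h0.2.symm
          have e2 : d = d0 + m0 + m := by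
            rw [← e1]
            exact (eo (by abel_nf <;> simp only [ch2, ch3, ch4, ch5, ch6, add_zero, zero_add]))
          rw [e2]
          exact (eo (by abel_nf <;> simp only [ch2, ch3, ch4, ch5, ch6, add_zero, zero_add]))
        have h3 : d + d0 ∈ X.M v := by
          rw [h2]
          exact add_mem ((hmem m).1 h.1.2) ((hmem m0).1 h0.1.2)
        exact X.N_M hv h3 h1
      · rintro ⟨d, m⟩ h ⟨d', m'⟩ h' e
        rw [Finset.mem_coe, Finset.mem_filter, Finset.mem_product] at h h'
        have e1 : d = d' := add_right_cancel (b := d0) e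
        subst e1
        have e2 : d + m = d + m' := h.2.trans h'.2.symm
        rw [add_left_cancel e2]
    · rw [Finset.not_nonempty_iff_eq_empty] at hne
      rw [hne, Finset.card_empty]
      exact Nat.zero_le _

theorem Dt_M_f {ψ : D V} {v d m : V} (hd : d ∈ X.Dt ψ) (hm : m ∈ X.M v) : f (d + m) = 1 := by
  rw [map_add, (X.mem_Dt.1 hd).1, X.M_f hm, add_zero]

theorem pack {ψ : D V} {v : V} (hv : f v = 1) :
    (X.Dt ψ).card * Nat.card (X.U v) ≤ X.P.card * Nat.card X.W0 := by
  apply X.pack_aux hv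
  intro d hd m hm
  rw [X.mem_P]
  exact X.Dt_M_f hd hm

theorem tile {ψ : D V} {v u : V} (hv : f v = 1) (hu : f u = 1)
    (heq : X.P.card * Nat.card X.W0 ≤ (X.Dt ψ).card * Nat.card (X.U v)) :
    ∃ d ∈ X.Dt ψ, ∃ m ∈ X.M v, u = d + m := by
  classical
  by_contra hno
  push Not at hno
  have h1 := X.pack_aux (ψ := ψ) (T := X.P.erase u) hv (by
    intro d hd m hm
    rw [Finset.mem_erase, X.mem_P]
    exact ⟨fun e => hno d hd m hm e.symm, X.Dt_M_f hd hm⟩)
  rw [Finset.card_erase_of_mem (X.mem_P.2 hu)] at h1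
  have hpos : 0 < X.P.card := Finset.card_pos.2 ⟨u, X.mem_P.2 hu⟩
  have hW : 0 < Nat.card X.W0 := Nat.card_pos
  have h2 : (X.P.card - 1) * Nat.card X.W0 < X.P.card * Nat.card X.W0 :=
    Nat.mul_lt_mul_of_pos_right (by omega) hW
  omega

end

end One

end Pool.Agent.ETCMR
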