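import Pool.Agent.ETCR.Sat

/-!
# Elements with only one nonzero quaternion, any distinguished element (after helper50, RK1, and
helper29's Lean for `e = 0`): classes
-/

set_option autoImplicit false
set_option linter.unusedSimpArgs false
set_option linter.unnecessarySeqFocus false
set_option linter.unusedSectionVars false
set_option linter.unusedVariables false

namespace Pool.Agent.ETCMR

open Pool.Agent.Helper58.PLine (QData)
open Pool.Agent.ETCP
open Pool.Agent.ETCR (N Z Wp not_Z_iff F1 mem_F1 card_F1 sep2 card_inf_ker card_ann XC XCs SN mem_SN sat_N)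

variable {V Q : Type} [AddCommGroup V] [Module (ZMod 2) V] {S : QData V Q}

variable (S) in
/-- `Q_s = {0, c}`, `f` is the functional with `q (s, v) = f (v) c` -/
structure One (s : V) (c : Q) (f : V →ₗ[ZMod 2] ZMod 2) : Prop where
  fs : f s = 0
  hc : c ≠ S.z
  h0 : ∀ v, f v = 0 → S.q s v = S.z
  h1 : ∀ v, f v = 1 → S.q s v = c
  hf : ∃ v, f v = 1

namespace One

variable {s : V} {c : Q} {f : V →ₗ[ZMod 2] ZMod 2} (X : One S s c f)
include X

theorem f_iff {v : V} : C S s v ↔ f v = 0 := by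
  constructor
  · intro h
    rcases ETC.zm (f v) with h' | h'
    · exact h'
    · exact absurd ((X.h1 v h').symm.trans h) X.hc
  · exact X.h0 v

theorem f_iff' {v : V} : S.q s v = c ↔ f v = 1 := by
  constructor
  · intro h
    rcases ETC.zm (f v) with h' | h'
    · exact absurd (h.symm.trans (X.h0 v h')) X.hc
    · exact h'
  · exact X.h1 v

/-- `f` vanishes at the distinguished element -/
theorem fe : f S.e = 0 := by
  have := X.f_iff.1 (show C S s (s + S.e) from S.diag s)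
  rwa [map_add, X.fs, zero_add] at this

/-- if `s ~ v + t` and `f v = 1` then `f t = 1` -/
theorem f_of {v t : V} (hv : f v = 1) (h : C S s (v + t)) : f t = 1 := by
  have := X.f_iff.1 h
  rw [map_add, hv] at this
  rcases ETC.zm (f t) with h' | h'
  · rw [h', add_zero] at this
    exact absurd this one_ne_zero
  · exact h'

theorem ne_s {v : V} (hv : f v = 1) : S.q v s = c := by rw [S.symm]; exact X.h1 v hv

theorem N_f {x : V} (h : N S c x) : f x = 0 := by
  rcases ETC.zm (f x) with h' | h'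
  · exact h'
  · exact absurd (X.ne_s h') (h s)

/-- `c ∈ Q_(x+s)` iff `V_x` is not in `ker f` -/
theorem slot_iff {x : V} : (∃ y, S.q (x + s) y = c) ↔ Wp S f x := by
  constructor
  · rintro ⟨y, hy⟩
    obtain ⟨t1, ht1⟩ := X.hf
    obtain ⟨t, h1, h2, h3⟩ := link (hy.trans (X.h1 t1 ht1).symm)
    refine ⟨t, X.f_of ht1 h2, h3.of_eq
      (eo (by abel_nf <;> simp only [ch2, ch3, ch4, ch5, ch6, add_zero, zero_add])) rfl⟩
  · rintro ⟨t, h1, h2⟩
    refine ⟨t, ?_⟩
    rw [← X.h1 t h1]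
    apply q_eq'
    exact h2.of_eq
      (eo (by abel_nf <;> simp only [ch2, ch3, ch4, ch5, ch6, add_zero, zero_add])) rfl

theorem N_add_s {x : V} : N S c (x + s) ↔ Z S f x := by
  rw [← not_iff_not, not_Z_iff, ← X.slot_iff]
  unfold N
  push Not
  rfl

theorem Z_f {x : V} (h : Z S f x) : f x = 0 := by
  have := X.N_f (X.N_add_s.2 h)
  rw [map_add, X.fs, add_zero] at this
  exact this

theorem Z_add_s {x : V} : Z S f (x + s) ↔ N S c x := by
  rw [← X.N_add_s, add_assoc, ZModModule.add_self, add_zero]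

/-- for `x ∈ Z` the value `c` is not taken on `ker f` -/
theorem Z_ne {x h : V} (hx : Z S f x) (hh : f h = 0) : S.q x h ≠ c := by
  intro e
  obtain ⟨t1, ht1⟩ := X.hf
  obtain ⟨t, h1, h2, -⟩ := link (e.trans (X.h1 t1 ht1).symm)
  have h3 := X.f_of ht1 h2
  have h4 := hx _ h1
  rw [map_add, hh, h3] at h4
  exact one_ne_zero h4

/-- main linking lemma -/
theorem linkN {w u y : V} (hN : N S c w) (hW : Wp S f w) (hu : S.q u y = c) :
    ∃ v, f v = 1 ∧ C S w v ∧ S.q u v = c := by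
  obtain ⟨t, ht⟩ := X.slot_iff.2 hW
  obtain ⟨v, h1, h2, h3⟩ := link (ht.trans hu.symm)
  have e1 : S.q (w + s) v = c := by rw [← ht]; exact (q_eq h1).symm
  have hv : f v = 1 := by
    rcases ETC.zm (f v) with h' | h'
    · exfalso
      apply hN v
      rw [← e1]
      apply q_eq'
      exact C.of_eq (S := S) (X.h0 v h')
        (eo (by abel_nf <;> simp only [ch2, ch3, ch4, ch5, ch6, add_zero, zero_add])) rfl
    · exact h'
  refine ⟨v, hv, ?_, ?_⟩
  · have : S.q (w + s) v = S.q s v := by rw [e1, X.h1 v hv]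
    exact (q_eq'_iff.1 this).of_eq
      (eo (by abel_nf <;> simp only [ch2, ch3, ch4, ch5, ch6, add_zero, zero_add])) rfl
  · rw [← hu]; exact (q_eq h2).symm

theorem N_add {x w : V} (hx : N S c x) (hN : N S c w) (hW : Wp S f w) : N S c (x + w) := by
  intro y hy
  obtain ⟨v, h1, h2, h3⟩ := X.linkN hN hW hy
  apply hx v
  rw [← h3]
  apply q_eq'
  exact h2.of_eq
    (eo (by abel_nf <;> simp only [ch2, ch3, ch4, ch5, ch6, add_zero, zero_add])) rfl

theorem Wp_add {x w : V} (hx : Wp S f x) (hN : N S c w) (hW : Wp S f w) :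
    Wp S f (x + w) := by
  rw [← not_Z_iff] at hx ⊢
  intro h
  apply hx
  have h1 := X.N_add (X.N_add_s.2 h) hN hW
  rw [← X.N_add_s]
  have e : x + w + s + w = x + s :=
    (eo (by abel_nf <;> simp only [ch2, ch3, ch4, ch5, ch6, add_zero, zero_add]))
  rwa [e] at h1

theorem N_zero : N S c 0 := by
  intro y hy
  rw [ETC.q_zero_left] at hy
  exact X.hc hy.symm

theorem Wp_zero : Wp S f 0 := by
  obtain ⟨t, ht⟩ := X.hf
  exact ⟨t, ht, C.zero' t⟩

/-- the subspace `W0 = N \ Z` -/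
def W0 : Submodule (ZMod 2) V where
  carrier := {x | N S c x ∧ Wp S f x}
  add_mem' := fun ha hb => ⟨X.N_add ha.1 hb.1 hb.2, X.Wp_add ha.2 hb.1 hb.2⟩
  zero_mem' := ⟨X.N_zero, X.Wp_zero⟩
  smul_mem' := by
    intro a x hx
    rcases ETC.zm a with rfl | rfl
    · rw [zero_smul]; exact ⟨X.N_zero, X.Wp_zero⟩
    · rw [one_smul]; exact hx

theorem mem_W0 {x : V} : x ∈ X.W0 ↔ N S c x ∧ Wp S f x := Iff.rfl

theorem W0_f {x : V} (h : x ∈ X.W0) : f x = 0 := X.N_f h.1

theorem N_add_W0 {x w : V} (hw : w ∈ X.W0) : N S c (x + w) ↔ N S c x := by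
  constructor
  · intro h
    have := X.N_add h hw.1 hw.2
    rwa [add_assoc, ZModModule.add_self, add_zero] at this
  · exact fun h => X.N_add h hw.1 hw.2

theorem Z_add_W0 {x w : V} (hw : w ∈ X.W0) : Z S f (x + w) ↔ Z S f x := by
  rw [← X.N_add_s, ← X.N_add_s, show x + w + s = x + s + w by abel, X.N_add_W0 hw]

/-- `N0 = N ∩ Z` -/
def N0 (_X : One S s c f) (x : V) : Prop := N S c x ∧ Z S f x

theorem N0_add_s {x : V} : X.N0 (x + s) ↔ X.N0 x := by
  unfold N0
  rw [X.N_add_s, X.Z_add_s, and_comm]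

theorem N0_add_W0 {x w : V} (hw : w ∈ X.W0) : X.N0 (x + w) ↔ X.N0 x := by
  unfold N0
  rw [X.N_add_W0 hw, X.Z_add_W0 hw]

theorem N_cases {x : V} (h : N S c x) : x ∈ X.W0 ∨ X.N0 x := by
  by_cases hz : Z S f x
  · exact Or.inr ⟨h, hz⟩
  · exact Or.inl ⟨h, not_Z_iff.1 hz⟩

/-- elements of `Z` have no value in common on and off `ker f` -/
theorem C2 {z z2 h v : V} (hz : Z S f z) (hz2 : Z S f z2) (hh : f h = 0) (hv : f v = 1) :
    S.q z h ≠ S.q z2 v := by
  intro e
  obtain ⟨t, h1, h2, -⟩ := link e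
  have k1 := hz _ h1
  have k2 := hz2 _ h2
  rw [map_add, hh, zero_add] at k1
  rw [map_add, hv, k1, add_zero] at k2
  exact one_ne_zero k2

/-- `E_v = (V_v + W0) ∩ ker f` -/
def E (v : V) : Submodule (ZMod 2) V := (S.ann v ⊔ X.W0) ⊓ LinearMap.ker f

theorem mem_E {v x : V} (hv : f v = 1) : x ∈ X.E v ↔
    ∃ a w, C S v a ∧ f a = 0 ∧ w ∈ X.W0 ∧ x = a + w := by
  unfold E
  rw [Submodule.mem_inf, Submodule.mem_sup, LinearMap.mem_ker]
  constructor
  · rintro ⟨⟨a, ha, w, hw, rfl⟩, h⟩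
    rw [map_add, X.W0_f hw, add_zero] at h
    exact ⟨a, w, ha, h, hw, rfl⟩
  · rintro ⟨a, w, ha, h, hw, rfl⟩
    exact ⟨⟨a, ha, w, hw, rfl⟩, by rw [map_add, h, X.W0_f hw, add_zero]⟩

/-- elements of `E_v` commute with something outside `ker f` -/
theorem Wp_of_E {v x : V} (hv : f v = 1) (hx : x ∈ X.E v) : Wp S f x := by
  obtain ⟨a, w, ha, -, hw, rfl⟩ := (X.mem_E hv).1 hx
  exact X.Wp_add ⟨v, hv, ha.symm⟩ hw.1 hw.2

theorem s_notMem {v : V} : s ∉ S.ann v ⊔ X.W0 ∨ f v = 0 := by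
  rcases ETC.zm (f v) with h | h
  · exact Or.inr h
  · left
    intro hs
    obtain ⟨a, ha, w, hw, e⟩ := Submodule.mem_sup.1 hs
    apply hw.1 v
    rw [S.symm]
    have : w = s + a := by
      rw [← e]
      exact (eo (by abel_nf <;> simp only [ch2, ch3, ch4, ch5, ch6, add_zero, zero_add]))
    rw [← X.ne_s h, this]
    apply q_eq
    exact C.of_eq (S := S) (x := v) (y := a) ha rfl
      (eo (by abel_nf <;> simp only [ch2, ch3, ch4, ch5, ch6, add_zero, zero_add]))

/-- `N` meets `E_v + <s>` only in `W0` -/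
theorem N_E {v x e : V} (hv : f v = 1) (he : e ∈ X.E v) (hx : x = e ∨ x = e + s)
    (hN : N S c x) : x ∈ X.W0 := by
  rcases hx with rfl | rfl
  · exact ⟨hN, X.Wp_of_E hv he⟩
  · exact absurd (X.N_add_s.1 hN) (not_Z_iff.2 (X.Wp_of_E hv he))

end One

end Pool.Agent.ETCMR
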