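import Pool.Agent.ETCMR.Part2

/-!
# The commutative case of RK1 for any distinguished element: the quotient by `s`
-/

set_option autoImplicit false
set_option linter.unusedSimpArgs false
set_option linter.unnecessarySeqFocus false
set_option linter.unusedSectionVars false
set_option linter.unusedVariables false

namespace Pool.Agent.ETCMR

open Pool.Agent.Helper58.PLine (QData)
open Pool.Agent.ETCP
open Pool.Agent.ETCR (N Z Wp not_Z_iff F1 mem_F1 card_F1 sep2 card_inf_ker card_ann XC XCs SN mem_SN sat_N)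
open ETC (D)

variable {V Q : Type} [AddCommGroup V] [Module (ZMod 2) V] {S : QData V Q}

/-! ### the noncommutative case -/

/-- if `X_c` is not commutative then `N` is closed under addition -/
theorem N_add {c : Q} (hc : c ≠ S.z) {s t : V} (hs : XC S c s) (ht : XC S c t) (hq : S.q s t = c)
    {x w : V} (hx : N S c x) (hw : N S c w) : N S c (x + w) := by
  intro y hy
  have h1 : C S w t := ht.N hw
  have h2 : S.q (w + s) t = c := by
    rw [← hq]
    exact q_eq' (h1.of_eq (eo (by abel_nf <;> simp only [ch2, ch3, ch4, ch5, ch6, add_zero, zero_add])) rfl)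
  obtain ⟨v, k1, k2, k3⟩ := link (hy.trans h2.symm)
  have e1 : S.q (x + w) v = c := by rw [← hy]; exact (q_eq k1).symm
  have e2 : S.q (w + s) v = c := by rw [← h2]; exact (q_eq k2).symm
  rcases hs v with h | h
  · apply hw v
    rw [← e2]
    exact q_eq' (C.of_eq (S := S) (x := s) (y := v) h (eo (by abel_nf <;> simp only [ch2, ch3, ch4, ch5, ch6, add_zero, zero_add])) rfl)
  · have h3 : C S w v := by
      have := q_eq'_iff.1 (e2.trans h.symm)
      exact this.of_eq (eo (by abel_nf <;> simp only [ch2, ch3, ch4, ch5, ch6, add_zero, zero_add])) rfl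
    apply hx v
    rw [← e1]
    exact q_eq' (h3.of_eq (eo (by abel_nf <;> simp only [ch2, ch3, ch4, ch5, ch6, add_zero, zero_add])) rfl)

theorem N_zero {c : Q} (hc : c ≠ S.z) : N S c 0 := by
  intro y hy
  rw [ETC.q_zero_left] at hy
  exact hc hy.symm

/-- `N` as a subspace if `X_c` is not commutative -/
def NS {c : Q} (hc : c ≠ S.z) {s t : V} (hs : XC S c s) (ht : XC S c t) (hq : S.q s t = c) :
    Submodule (ZMod 2) V where
  carrier := {x | N S c x}
  add_mem' := fun ha hb => N_add hc hs ht hq ha hb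
  zero_mem' := N_zero hc
  smul_mem' := by
    intro a x hx
    rcases ETC.zm a with rfl | rfl
    · rw [zero_smul]; exact N_zero hc
    · rw [one_smul]; exact hx

/-- the noncommutative case: `V = X_c + N`, a product -/
theorem noncomm [Finite V] (hnd : ∀ x, (∀ y, C S x y) → x = 0) {c : Q} (hc : c ≠ S.z) {s t : V}
    (hs : XC S c s) (ht : XC S c t) (hq : S.q s t = c) :
    IsCompl (XCs S c) (NS hc hs ht hq) ∧ (∀ a ∈ XCs S c, ∀ b ∈ NS hc hs ht hq, C S a b) ∧
      (∀ a ∈ XCs S c, ∀ b ∈ NS hc hs ht hq, ∀ a' ∈ XCs S c, ∀ b' ∈ NS hc hs ht hq,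
        C S (a + b) (a' + b') → C S a a' ∧ C S b b') := by
  have hcm : ∀ a ∈ XCs S c, ∀ b ∈ NS hc hs ht hq, C S a b := fun a ha b hb =>
    (XC.N (S := S) (show XC S c a from ha) (show N S c b from hb)).symm
  have hdisj : ∀ x, x ∈ XCs S c → x ∈ NS hc hs ht hq → x = 0 := by
    intro x hx hw
    apply hnd
    intro y
    exact (hx y).resolve_right (hw y)
  have hSN : SN S c = NS hc hs ht hq := by
    apply le_antisymm
    · unfold SN
      rw [Submodule.span_le]
      exact fun x hx => hx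
    · exact fun x hx => Submodule.subset_span hx
  refine ⟨⟨?_, ?_⟩, hcm, ?_⟩
  · rw [Submodule.disjoint_def]
    exact hdisj
  · rw [codisjoint_iff, eq_top_iff]
    intro x _
    by_contra hne
    obtain ⟨l, h1, h2⟩ := ETC.exists_dual_sep hne
    obtain ⟨t1, ht1⟩ := sat_N (S := S) (c := c) l
      (fun y hy => h2 y (Submodule.mem_sup_right hy))
    have hX : XC S c t1 := by
      intro v
      rcases ETC.zm (l v) with h | h
      · left; rw [S.symm]; exact (ht1 v).2 h
      · right; rw [S.symm]; exact (ht1 v).1 h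
    have h3 : t1 ∈ NS hc hs ht hq := by
      rw [← hSN, mem_SN hc]
      intro u hu
      have hlu : l u = 0 := h2 u (Submodule.mem_sup_left hu)
      show S.q t1 u = S.z
      rw [S.symm]
      exact (ht1 u).2 hlu
    have h4 : t1 = 0 := hdisj t1 hX h3
    have h5 := (ht1 x).1 h1
    rw [h4, S.q_zero] at h5
    exact hc h5.symm
  · intro a ha b hb a' ha' b' hb' h
    have e1 : S.q (a + b) a' = S.q (a + b) b' := q_eq h
    have e2 : S.q (a + b) a' = S.q a a' := by
      apply q_eq'
      exact (hcm a' ha' b hb).symm.of_eq (eo (by abel_nf <;> simp only [ch2, ch3, ch4, ch5, ch6, add_zero, zero_add])) rfl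
    have e3 : S.q (a + b) b' = S.q b b' := by
      apply q_eq'
      exact (hcm a ha b' hb').of_eq (eo (by abel_nf <;> simp only [ch2, ch3, ch4, ch5, ch6, add_zero, zero_add])) rfl
    have e4 : S.q a a' = S.q b b' := by rw [← e2, ← e3, e1]
    rcases ha a' with h1 | h1
    · exact ⟨h1, e4.symm.trans h1⟩
    · exact absurd (e4.symm.trans h1) (hb b')

/-- `X_c` is not commutative and nothing commutes with it: only two quaternions -/
theorem two_vals [Finite V] (hnd : ∀ x, (∀ y, C S x y) → x = 0) {c : Q} (hc : c ≠ S.z) {s t : V}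
    (hs : XC S c s) (ht : XC S c t) (hq : S.q s t = c) (h0 : ∀ x ∈ NS hc hs ht hq, x = 0) (x : V) :
    XC S c x := by
  obtain ⟨h1, -, -⟩ := noncomm hnd hc hs ht hq
  have hx : x ∈ XCs S c ⊔ NS hc hs ht hq := by rw [h1.sup_eq_top]; trivial
  obtain ⟨a, ha, b, hb, e⟩ := Submodule.mem_sup.1 hx
  rw [h0 b hb, add_zero] at e
  rw [← e]; exact ha

namespace One

variable {s : V} {c : Q} {f : V →ₗ[ZMod 2] ZMod 2} (X : One S s c f)
include X

/-- the form `f ∧ g + g(e) f f` vanishes on commuting pairs -/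
theorem wedge (hW : ∀ u, f u = 0 → Wp S f u → u ∈ X.W0) {g : D V} (hg : ∀ w ∈ X.W0, g w = 0)
    {x y : V} (h : C S x y) : f x * g y + f y * g x + g S.e * (f x * f y) = 0 := by
  rcases ETC.zm (f x) with hx | hx <;> rcases ETC.zm (f y) with hy | hy
  · rw [hx, hy]; simp
  · have : x ∈ X.W0 := hW x hx ⟨y, hy, h⟩
    rw [hx, hy, hg x this]; simp
  · have : y ∈ X.W0 := hW y hy ⟨x, hx, h.symm⟩
    rw [hx, hy, hg y this]; simp
  · have h1 : C S x (x + S.e + y) := C.add (S := S) (S.diag x) h
    have h2 : x + S.e + y ∈ X.W0 :=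
      hW _ (by rw [map_add, map_add, hx, hy, X.fe]; decide) ⟨x, hx, h1.symm⟩
    have h3 := hg _ h2
    rw [map_add, map_add] at h3
    rw [hx, hy, one_mul, one_mul, one_mul, mul_one]
    rw [← h3]; ring

omit X in
/-- the twist `v ↦ v + g(e) f(v) s` -/
def tL (S : QData V Q) (s : V) (f g : D V) : V →ₗ[ZMod 2] V :=
  LinearMap.id + (g S.e • f).smulRight s

omit X in
theorem tL_apply (g : D V) (v : V) : tL S s f g v = v + (g S.e * f v) • s := rfl

omit X in
theorem tL_zero {g : D V} {v : V} (h : f v = 0) : tL S s f g v = v := by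
  rw [tL_apply, h, mul_zero, zero_smul, add_zero]

omit X in
theorem tL_ge {g : D V} (h : g S.e = 0) (v : V) : tL S s f g v = v := by
  rw [tL_apply, h, zero_mul, zero_smul, add_zero]

omit X in
theorem tL_one {g : D V} {v : V} (h : f v = 1) (hg : g S.e = 1) : tL S s f g v = v + s := by
  rw [tL_apply, h, hg, mul_one, one_smul]

theorem f_tL (g : D V) (v : V) : f (tL S s f g v) = f v := by
  rw [tL_apply, map_add, map_smul, X.fs, smul_zero, add_zero]

theorem tL_tL (g : D V) (v : V) : tL S s f g (tL S s f g v) = v := by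
  rw [tL_apply, X.f_tL, tL_apply, add_assoc, ← add_smul, ZModModule.add_self, zero_smul, add_zero]

omit X in
theorem g_tL {g : D V} (hgs : g s = 1) (v : V) : g (tL S s f g v) = g v + g S.e * f v := by
  rw [tL_apply, map_add, map_smul, hgs, smul_eq_mul, mul_one]

theorem tsymm (g : D V) (a b : V) : S.q a (tL S s f g b) = S.q b (tL S s f g a) := by
  rcases ETC.zm (g S.e) with hg | hg
  · rw [tL_ge hg, tL_ge hg, S.symm]
  rcases ETC.zm (f a) with ha | ha <;> rcases ETC.zm (f b) with hb | hb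
  · rw [tL_zero ha, tL_zero hb, S.symm]
  · rw [tL_zero ha, tL_one hb hg, S.symm b]
    apply q_eq
    exact (X.f_iff.2 ha).symm.of_eq rfl (eo (by abel_nf <;> simp only [ch2, ch3, ch4, ch5, ch6, add_zero, zero_add]))
  · rw [tL_zero hb, tL_one ha hg, S.symm a]
    apply Eq.symm
    apply q_eq
    exact (X.f_iff.2 hb).symm.of_eq rfl (eo (by abel_nf <;> simp only [ch2, ch3, ch4, ch5, ch6, add_zero, zero_add]))
  · rw [tL_one ha hg, tL_one hb hg]
    exact ETC.add_common (S := S) (S.symm a b) ((X.ne_s ha).trans (X.ne_s hb).symm)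

theorem tdiag (g : D V) (a : V) : C S a (tL S s f g (S.e + (g S.e) • s + a)) := by
  have hf : f (S.e + (g S.e) • s + a) = f a := by
    rw [map_add, map_add, map_smul, X.fs, X.fe, smul_zero, add_zero, zero_add]
  have h0 : C S a (S.e + a) := C.of_eq (S := S) (x := a) (S.diag a) rfl (add_comm a S.e)
  rcases ETC.zm (g S.e) with hg | hg
  · rw [tL_ge hg, hg, zero_smul, add_zero]
    exact h0
  rw [tL_apply, hf, hg, one_smul, one_mul]
  rcases ETC.zm (f a) with ha | ha
  · rw [ha, zero_smul, add_zero]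
    exact (h0.add (X.f_iff.2 ha).symm).of_eq rfl (eo (by abel_nf <;> simp only [ch2, ch3, ch4, ch5, ch6, add_zero, zero_add]))
  · rw [ha, one_smul]
    exact h0.of_eq rfl (eo (by abel_nf <;> simp only [ch2, ch3, ch4, ch5, ch6, add_zero, zero_add]))

/-- the key step: `C a (L b + t)` with `a, b` in `ker g` -/
theorem tkey (hW : ∀ u, f u = 0 → Wp S f u → u ∈ X.W0) {g : D V} (hg : ∀ w ∈ X.W0, g w = 0)
    (hgs : g s = 1) {a b t : V} (ha : g a = 0) (hb : g b = 0) (h : C S a (tL S s f g b + t)) :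
    f a = 0 ∨ g (tL S s f g t) = 0 := by
  have h1 := X.wedge hW hg h
  rw [ha, mul_zero, add_zero, map_add, map_add, g_tL hgs, X.f_tL, hb, zero_add] at h1
  rw [g_tL hgs]
  rcases ETC.zm (f a) with h2 | h2
  · exact Or.inl h2
  · right
    rw [h2, one_mul, one_mul] at h1
    rw [← h1]
    rcases ETC.zm (g S.e) with k1 | k1 <;> rcases ETC.zm (f b) with k2 | k2 <;>
      rcases ETC.zm (g t) with k3 | k3 <;> rcases ETC.zm (f t) with k4 | k4 <;>
      rw [k1, k2, k3, k4] <;> decide

theorem tlink (hW : ∀ u, f u = 0 → Wp S f u → u ∈ X.W0) {g : D V} (hg : ∀ w ∈ X.W0, g w = 0)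
    (hgs : g s = 1) : ∀ a, g a = 0 → ∀ b, g b = 0 → ∀ c', g c' = 0 → ∀ d, g d = 0 →
      S.q a (tL S s f g b) = S.q c' (tL S s f g d) →
      ∃ x, g x = 0 ∧ S.q a (tL S s f g b) = S.q a (tL S s f g x) ∧
        S.q c' (tL S s f g d) = S.q c' (tL S s f g x) := by
  intro a ha b hb c' hc' d hd h
  obtain ⟨t, h1, h2, h3⟩ := link h
  by_cases ht : g (tL S s f g t) = 0
  · refine ⟨_, ht, ?_, ?_⟩
    · rw [X.tL_tL]; exact q_eq h1
    · rw [X.tL_tL]; exact q_eq h2
  · have fa := (X.tkey hW hg hgs ha hb h1).resolve_right ht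
    have fc := (X.tkey hW hg hgs hc' hd h2).resolve_right ht
    have sa : C S a s := (X.f_iff.2 fa).symm
    have sc : C S c' s := (X.f_iff.2 fc).symm
    refine ⟨tL S s f g (t + s), ?_, ?_, ?_⟩
    · rw [map_add, map_add, (ETC.zm _).resolve_left ht, tL_zero X.fs, hgs]; decide
    · rw [X.tL_tL]
      apply q_eq
      exact (h1.add sa).of_eq rfl (eo (by abel_nf <;> simp only [ch2, ch3, ch4, ch5, ch6, add_zero, zero_add]))
    · rw [X.tL_tL]
      apply q_eq
      exact (h2.add sc).of_eq rfl (eo (by abel_nf <;> simp only [ch2, ch3, ch4, ch5, ch6, add_zero, zero_add]))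

/-- the property (b') on `ker g` -/
theorem tpartner (hW : ∀ u, f u = 0 → Wp S f u → u ∈ X.W0) {g : D V} (hg : ∀ w ∈ X.W0, g w = 0)
    (hgs : g s = 1) {t w : V} (ht : f t = 1) (hgt : g t = 0) (hw : w ∈ X.W0) :
    ∃ v, g v = 0 ∧ f v = 1 ∧ C S t (tL S s f g v) ∧ C S w (tL S s f g v) := by
  obtain ⟨v, hv, h1, h2⟩ := X.linkN hw.1 hw.2 (X.ne_s ht)
  have h3 : C S t (v + s) := by
    apply q_eq_iff.1
    rw [h2, X.ne_s ht]
  have h4 : f (v + s) = 1 := by rw [map_add, hv, X.fs, add_zero]
  refine ⟨tL S s f g (v + s), ?_, ?_, ?_, ?_⟩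
  · have := X.wedge hW hg h3
    rw [ht, hgt, h4, mul_zero, one_mul, add_zero, mul_one, mul_one] at this
    rw [g_tL hgs, h4, mul_one]
    exact this
  · rw [X.f_tL]; exact h4
  · rw [X.tL_tL]; exact h3
  · rw [X.tL_tL]
    exact h1.add (X.f_iff.2 (X.W0_f hw)).symm

/-- commuting pairs descend to the quotient by `s` -/
theorem tdesc (hW : ∀ u, f u = 0 → Wp S f u → u ∈ X.W0) {g : D V} (hg : ∀ w ∈ X.W0, g w = 0)
    (hgs : g s = 1) {v v' : V} (h : C S v v') :
    C S (v + g v • s) (tL S s f g (v' + g v' • s)) := by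
  have e1 : tL S s f g (v' + g v' • s) = v' + (g v' + g S.e * f v') • s := by
    rw [tL_apply, map_add, map_smul, X.fs, smul_zero, add_zero, add_smul, add_assoc]
  rw [e1]
  have h1 := X.wedge hW hg h
  have h2 : f v * (g v' + g S.e * f v') + f v' * g v = 0 := by
    rw [← h1]; ring
  obtain ⟨β, hβ⟩ : ∃ β, β = g v' + g S.e * f v' := ⟨_, rfl⟩
  rw [← hβ] at h2 ⊢
  rcases ETC.zm (g v) with ha | ha <;> rcases ETC.zm β with hb | hb
  · rw [ha, hb, zero_smul, add_zero, add_zero]; exact h
  · rw [ha, hb, zero_smul, one_smul, add_zero]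
    rw [ha, hb, mul_one, mul_zero, add_zero] at h2
    exact h.add (X.f_iff.2 h2).symm
  · rw [ha, hb, zero_smul, one_smul, add_zero]
    rw [ha, hb, mul_one, mul_zero, zero_add] at h2
    exact h.add' (X.f_iff.2 h2)
  · rw [ha, hb, one_smul]
    rw [ha, hb, mul_one, mul_one] at h2
    have ss : C S s s := X.f_iff.2 X.fs
    rcases ETC.zm (f v) with k | k
    · rw [k, zero_add] at h2
      exact (h.add (X.f_iff.2 k).symm).add' ((X.f_iff.2 h2).add ss)
    · have k' : f v' = 1 := by
        rcases ETC.zm (f v') with k' | k'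
        · rw [k, k', add_zero] at h2; exact absurd h2 one_ne_zero
        · exact k'
      have a1 : S.q (v + s) v' = S.q s v' :=
        q_eq' (h.of_eq (eo (by abel_nf <;> simp only [ch2, ch3, ch4, ch5, ch6, add_zero, zero_add])) rfl)
      have a2 : S.q (v + s) s = S.q v s :=
        q_eq' (ss.of_eq (eo (by abel_nf <;> simp only [ch2, ch3, ch4, ch5, ch6, add_zero, zero_add])) rfl)
      apply q_eq_iff.1
      rw [a1, a2, X.h1 v' k', X.ne_s k]

end One

end Pool.Agent.ETCMR
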