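import Pool.Agent.ETCMR.Clique

/-!
# Equality in the transversal argument (helper50), in Lean (helper29)
-/

set_option autoImplicit false
set_option linter.unusedSimpArgs false
set_option linter.unnecessarySeqFocus false
set_option linter.unusedSectionVars false
set_option linter.unusedVariables false

namespace Pool.Agent.ETCMR

open Pool.Agent.Helper58.PLine (QData)
open Pool.Agent.ETCP
open Pool.Agent.ETCR (N Z Wp not_Z_iff F1 mem_F1 card_F1 sep2 card_inf_ker card_ann XC XCs SN mem_SN sat_N)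
open ETC (D)

variable {V Q : Type} [AddCommGroup V] [Module (ZMod 2) V] {S : QData V Q}

namespace One

variable {s : V} {c : Q} {f : V →ₗ[ZMod 2] ZMod 2} (X : One S s c f)

section
variable [Fintype V]

theorem s_notMem_W0 : s ∉ X.W0 := by
  obtain ⟨v, hv⟩ := X.hf
  exact fun h => X.s_notMem_U hv (Submodule.mem_sup_right h)

/-- functionals vanishing on `W0` with value 1 at `s` -/
noncomputable def A : Finset (D V) := F1 X.W0 s

open Classical in
/-- the functionals in some `J (v + w)` -/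
noncomputable def JJ (v : V) : Finset (D V) := X.A.filter (fun ψ => ∃ w ∈ X.W0, ψ ∈ X.J (v + w))

theorem J_A {v : V} : X.J v ⊆ X.A := by
  intro ψ h
  have := X.mem_J.1 h
  exact mem_F1.2 ⟨this.1, fun y hy => this.2 y (Submodule.mem_sup_right hy)⟩

theorem mem_JJ {v : V} {ψ : D V} : ψ ∈ X.JJ v ↔ ∃ w ∈ X.W0, ψ ∈ X.J (v + w) := by
  classical
  unfold JJ
  rw [Finset.mem_filter]
  constructor
  · exact fun h => h.2
  · intro h
    obtain ⟨w, hw, h1⟩ := h
    exact ⟨X.J_A h1, w, hw, h1⟩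

theorem J_JJ {v : V} : X.J v ⊆ X.JJ v := by
  intro ψ h
  rw [X.mem_JJ]
  exact ⟨0, zero_mem _, by rwa [add_zero]⟩

theorem double : ∑ ψ ∈ X.A, (X.Dt ψ).card = ∑ v ∈ X.P, (X.JJ v).card := by
  classical
  have h1 : ∀ ψ ∈ X.A, (X.Dt ψ).card =
      ∑ v ∈ X.P, if (∃ w ∈ X.W0, ψ ∈ X.J (v + w)) then 1 else 0 := by
    intro ψ _
    unfold Dt
    rw [Finset.card_filter]
  have h2 : ∀ v ∈ X.P, (X.JJ v).card =
      ∑ ψ ∈ X.A, if (∃ w ∈ X.W0, ψ ∈ X.J (v + w)) then 1 else 0 := by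
    intro v _
    unfold JJ
    rw [Finset.card_filter]
  rw [Finset.sum_congr rfl h1, Finset.sum_congr rfl h2]
  exact Finset.sum_comm

theorem equality : (∀ v, f v = 1 → X.J v = X.JJ v) ∧
    (∀ ψ ∈ X.A, ∀ v, f v = 1 →
      X.P.card * Nat.card X.W0 ≤ (X.Dt ψ).card * Nat.card (X.U v)) := by
  classical
  obtain ⟨v0, hv0⟩ := X.hf
  obtain ⟨vm, hvm, hmax⟩ := Finset.exists_max_image X.P (fun v => Nat.card (X.U v))
    ⟨v0, X.mem_P.2 hv0⟩
  obtain ⟨μ, hμ⟩ : ∃ μ, μ = Nat.card (X.U vm) := ⟨_, rfl⟩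
  obtain ⟨n, hn⟩ : ∃ n, n = Fintype.card V := ⟨_, rfl⟩
  have hμpos : 0 < μ := by rw [hμ]; exact Nat.card_pos
  have hnpos : 0 < n := by rw [hn]; exact Fintype.card_pos
  have hle : ∀ v ∈ X.P, Nat.card (X.U v) ≤ μ := fun v hv => by rw [hμ]; exact hmax v hv
  have hA : X.A.card * (2 * Nat.card X.W0) = n := by rw [hn]; exact card_F1 X.s_notMem_W0
  have hP : X.P.card * 2 = n := by rw [hn]; exact X.card_P
  have hJ : ∀ v ∈ X.P, (X.J v).card * (2 * Nat.card (X.U v)) = n := fun v hv => by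
    rw [hn]; exact card_F1 (X.s_notMem_U (X.mem_P.1 hv))
  have hJJ : ∀ v ∈ X.P, (X.J v).card ≤ (X.JJ v).card := fun v _ => Finset.card_le_card X.J_JJ
  have hD : ∀ ψ ∈ X.A, (X.Dt ψ).card * μ ≤ X.P.card * Nat.card X.W0 := fun ψ _ => by
    rw [hμ]; exact X.pack (X.mem_P.1 hvm)
  have hlow : ∀ v ∈ X.P, n ≤ (X.JJ v).card * (2 * μ) := by
    intro v hv
    calc n = (X.J v).card * (2 * Nat.card (X.U v)) := (hJ v hv).symm
      _ ≤ (X.JJ v).card * (2 * μ) :=
        Nat.mul_le_mul (hJJ v hv) (Nat.mul_le_mul_left 2 (hle v hv))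
  have s1 : (∑ ψ ∈ X.A, (X.Dt ψ).card * μ) ≤ ∑ ψ ∈ X.A, X.P.card * Nat.card X.W0 :=
    Finset.sum_le_sum hD
  have s2 : (∑ v ∈ X.P, n) ≤ ∑ v ∈ X.P, (X.JJ v).card * (2 * μ) := Finset.sum_le_sum hlow
  have e1 : (∑ ψ ∈ X.A, (X.Dt ψ).card * μ) = (∑ ψ ∈ X.A, (X.Dt ψ).card) * μ :=
    (Finset.sum_mul _ _ _).symm
  have e2 : (∑ v ∈ X.P, (X.JJ v).card * (2 * μ)) = (∑ ψ ∈ X.A, (X.Dt ψ).card) * (2 * μ) := by
    rw [X.double, Finset.sum_mul]
  have e3 : (∑ ψ ∈ X.A, X.P.card * Nat.card X.W0) = X.A.card * (X.P.card * Nat.card X.W0) := by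
    rw [Finset.sum_const, smul_eq_mul]
  have e4 : (∑ v ∈ X.P, n) = X.P.card * n := by
    rw [Finset.sum_const, smul_eq_mul]
  obtain ⟨σ, hσ⟩ : ∃ σ, σ = ∑ ψ ∈ X.A, (X.Dt ψ).card := ⟨_, rfl⟩
  rw [← hσ] at e1 e2
  -- `4 σ μ = n²`
  have u1 : 4 * (X.A.card * (X.P.card * Nat.card X.W0)) = n * n := by
    calc 4 * (X.A.card * (X.P.card * Nat.card X.W0)) =
        (X.A.card * (2 * Nat.card X.W0)) * (X.P.card * 2) := by ring
      _ = n * n := by rw [hA, hP]
  have u2 : 2 * (X.P.card * n) = n * n := by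
    calc 2 * (X.P.card * n) = (X.P.card * 2) * n := by ring
      _ = n * n := by rw [hP]
  have a1 : 4 * (σ * μ) ≤ n * n := by
    rw [← u1]
    rw [e1, e3] at s1
    exact Nat.mul_le_mul_left 4 s1
  have a2 : n * n ≤ 4 * (σ * μ) := by
    rw [← u2]
    rw [e2, e4] at s2
    calc 2 * (X.P.card * n) ≤ 2 * (σ * (2 * μ)) := Nat.mul_le_mul_left 2 s2
      _ = 4 * (σ * μ) := by ring
  have a3 : 4 * (σ * μ) = n * n := le_antisymm a1 a2
  have b1 : (∑ ψ ∈ X.A, (X.Dt ψ).card * μ) = ∑ ψ ∈ X.A, X.P.card * Nat.card X.W0 := by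
    rw [e1, e3]
    omega
  have b2 : (∑ v ∈ X.P, n) = ∑ v ∈ X.P, (X.JJ v).card * (2 * μ) := by
    rw [e2, e4]
    have : 2 * (X.P.card * n) = 2 * (σ * (2 * μ)) := by
      rw [u2, ← a3]; ring
    omega
  have c1 := (Finset.sum_eq_sum_iff_of_le hD).1 b1
  have c2 := (Finset.sum_eq_sum_iff_of_le hlow).1 b2
  have d1 : ∀ v ∈ X.P, (X.J v).card = (X.JJ v).card ∧ Nat.card (X.U v) = μ := by
    intro v hv
    have k1 := c2 v hv
    have k2 := hJ v hv
    have k3 : (X.J v).card * (2 * Nat.card (X.U v)) ≤ (X.J v).card * (2 * μ) :=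
      Nat.mul_le_mul_left _ (Nat.mul_le_mul_left 2 (hle v hv))
    have k4 : (X.J v).card * (2 * μ) ≤ (X.JJ v).card * (2 * μ) :=
      Nat.mul_le_mul_right _ (hJJ v hv)
    have k5 : (X.J v).card * (2 * μ) = (X.JJ v).card * (2 * μ) := by omega
    have k6 : (X.J v).card * (2 * Nat.card (X.U v)) = (X.J v).card * (2 * μ) := by omega
    refine ⟨Nat.eq_of_mul_eq_mul_right (by omega) k5, ?_⟩
    have hJpos : 0 < (X.J v).card := by
      rcases Nat.eq_zero_or_pos (X.J v).card with h | h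
      · rw [h, zero_mul] at k2; omega
      · exact h
    have := Nat.eq_of_mul_eq_mul_left hJpos k6
    omega
  refine ⟨fun v hv => ?_, fun ψ hψ v hv => ?_⟩
  · exact Finset.eq_of_subset_of_card_le X.J_JJ (d1 v (X.mem_P.2 hv)).1.ge
  · rw [(d1 v (X.mem_P.2 hv)).2, c1 ψ hψ]

theorem U_W0_le {v w : V} (hv : f v = 1) (hw : w ∈ X.W0) : X.U (v + w) ≤ X.U v := by
  intro y hy
  by_contra hne
  obtain ⟨ψ, h1, h2, h3⟩ := sep2 (X.s_notMem_U hv) hne
  have hvw : f (v + w) = 1 := by rw [map_add, hv, X.W0_f hw, add_zero]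
  have k1 : ψ ∈ X.J v := X.mem_J.2 ⟨h1, h3⟩
  have k2 : ψ ∈ X.J (v + w) := by
    rw [X.equality.1 _ hvw, X.mem_JJ]
    exact ⟨w, hw, by rw [show v + w + w = v from (eo (by abel_nf <;> simp only [ch2, ch3, ch4, ch5, ch6, add_zero, zero_add]))]; exact k1⟩
  rw [(X.mem_J.1 k2).2 y hy] at h2
  exact zero_ne_one h2

theorem U_W0 {v w : V} (hv : f v = 1) (hw : w ∈ X.W0) : X.U (v + w) = X.U v := by
  apply le_antisymm (X.U_W0_le hv hw)
  have hvw : f (v + w) = 1 := by rw [map_add, hv, X.W0_f hw, add_zero]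
  have := X.U_W0_le hvw hw
  rwa [show v + w + w = v from (eo (by abel_nf <;> simp only [ch2, ch3, ch4, ch5, ch6, add_zero, zero_add]))] at this

theorem E_W0 {v w : V} (hv : f v = 1) (hw : w ∈ X.W0) : X.E (v + w) = X.E v := by
  rw [X.E_eq, X.E_eq, X.U_W0 hv hw]

/-- every `y ∈ ker f` outside `E_v + <s>` is congruent to an element of `N0` modulo `V_v` -/
theorem inter {v y : V} (hv : f v = 1) (hy : f y = 0) (hn : y ∉ X.M v) :
    ∃ a, C S v a ∧ f a = 0 ∧ X.N0 (y + a) := by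
  obtain ⟨ψ, h1, h2⟩ := ETC.exists_dual_sep (X.s_notMem_U hv)
  have hψ : ψ ∈ X.J v := X.mem_J.2 ⟨h1, h2⟩
  have hψA : ψ ∈ X.A := X.J_A hψ
  have hu : f (v + y) = 1 := by rw [map_add, hv, hy, add_zero]
  obtain ⟨d, hd, m, hm, e⟩ := X.tile hv hu (X.equality.2 ψ hψA v hv)
  have hvD : v ∈ X.Dt ψ := X.mem_Dt.2 ⟨hv, 0, zero_mem _, by rwa [add_zero]⟩
  have h3 : N S c (v + d) := X.Dt_N hvD hd
  have e1 : v + d = y + m := by
    have : v = d + m + y := by rw [← e]; exact (eo (by abel_nf <;> simp only [ch2, ch3, ch4, ch5, ch6, add_zero, zero_add]))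
    rw [this]; exact (eo (by abel_nf <;> simp only [ch2, ch3, ch4, ch5, ch6, add_zero, zero_add]))
  rw [e1] at h3
  have key : ∀ e' : V, e' ∈ X.E v → ∀ σ : V, (σ = 0 ∨ σ = s) → m = e' + σ →
      ∃ a, C S v a ∧ f a = 0 ∧ X.N0 (y + a) := by
    intro e' he' σ hσ hmσ
    obtain ⟨a, w, ha, hfa, hw, rfl⟩ := (X.mem_E hv).1 he'
    rw [hmσ, show y + (a + w + σ) = y + a + σ + w by abel, X.N_add_W0 hw] at h3
    rcases X.N_cases h3 with h4 | h4
    · exfalso
      apply hn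
      -- `y = a + σ + w'`
      have ha' : a ∈ X.E v := (X.mem_E hv).2 ⟨a, 0, ha, hfa, zero_mem _, by rw [add_zero]⟩
      have hw' : y + a + σ ∈ X.E v := by
        refine (X.mem_E hv).2 ⟨0, y + a + σ, C.zero v, map_zero f, h4, by rw [zero_add]⟩
      have h5 : y + σ ∈ X.E v := by
        have := add_mem ha' hw'
        rwa [show a + (y + a + σ) = y + σ from (eo (by abel_nf <;> simp only [ch2, ch3, ch4, ch5, ch6, add_zero, zero_add]))] at this
      rcases hσ with rfl | rfl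
      · left; rwa [add_zero] at h5
      · right; exact h5
    · refine ⟨a, ha, hfa, ?_⟩
      rcases hσ with rfl | rfl
      · rwa [add_zero] at h4
      · rwa [X.N0_add_s] at h4
  rcases hm with h | h
  · exact key m h 0 (Or.inl rfl) (by rw [add_zero])
  · exact key (m + s) h s (Or.inr rfl) (eo (by abel_nf <;> simp only [ch2, ch3, ch4, ch5, ch6, add_zero, zero_add]))

end

end One

end Pool.Agent.ETCMR
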