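import Pool.Agent.ETCR.Etf

/-!
# An induction over structures of elementary type, any `-1` (step (3.2) of RK1)
-/

set_option autoImplicit false
set_option linter.unusedSimpArgs false
set_option linter.unnecessarySeqFocus false
set_option linter.unusedSectionVars false
set_option linter.unusedVariables false

namespace Pool.Agent.ETCMR

open QS
open Pool.Agent.ETCR (q_one' swap_q)

/-- an ordering `P` such that any two elements of `P` commute with a common element outside `P` -/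
structure Po (S : QStruct) (P : Subgroup S.G) : Prop where
  neg : S.neg ∉ P
  mul : ∀ a b, a ∉ P → b ∉ P → a * b ∈ P
  o1 : ∀ t v, t ∉ P → S.q t v = S.zero → v ∈ P
  o2 : ∀ t w, t ∈ P → w ∈ P → ∃ v, v ∉ P ∧ S.q t v = S.zero ∧ S.q w v = S.zero

/-- some element outside `P` commutes with `P` -/
def Cp (S : QStruct) (P : Subgroup S.G) : Prop := ∃ e, e ∉ P ∧ ∀ w ∈ P, S.q e w = S.zero

theorem card_two_cases {G : Type} [Group G] (hc : Nat.card G = 2) {a : G} (ha : a ≠ 1) (x : G) :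
    x = 1 ∨ x = a := by
  obtain ⟨p, r, hpr, hu⟩ := Nat.card_eq_two_iff.1 hc
  have hall : ∀ x : G, x = p ∨ x = r := by
    intro x
    have : x ∈ ({p, r} : Set G) := by rw [hu]; trivial
    simpa using this
  rcases hall x with rfl | rfl <;> rcases hall 1 with h | h <;> rcases hall a with h' | h'
  · exact absurd (h'.trans h.symm) ha
  · exact Or.inl h.symm
  · exact Or.inr h'.symm
  · exact absurd (h'.trans h.symm) ha
  · exact absurd (h'.trans h.symm) ha
  · exact Or.inr h'.symm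
  · exact Or.inl h.symm
  · exact absurd (h'.trans h.symm) ha

theorem Po.two {S : QStruct} {P : Subgroup S.G} (h : Po S P) (hc : Nat.card S.G = 2) : Cp S P := by
  have hn : S.neg ≠ 1 := fun e => h.neg (e ▸ P.one_mem)
  refine ⟨S.neg, h.neg, fun w hw => ?_⟩
  rcases card_two_cases hc hn w with rfl | rfl
  · exact S.q_one _
  · exact absurd hw h.neg

theorem Po.loc {S : QStruct} {P : Subgroup S.G} (h : Po S P) (hf : Finite S.G)
    (h8 : 8 ≤ Nat.card S.G) (h1 : ∀ a, (∀ b, S.q a b = S.zero) → a = 1)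
    (h2 : Nat.card S.Q = 2) : False := by
  have two : ∀ β γ : S.Q, β ≠ S.zero → γ ≠ S.zero → β = γ := by
    obtain ⟨p, r, hpr, hu⟩ := Nat.card_eq_two_iff.1 h2
    have hall : ∀ x : S.Q, x = p ∨ x = r := by
      intro x
      have : x ∈ ({p, r} : Set S.Q) := by rw [hu]; trivial
      simpa using this
    intro β γ hb hg
    rcases hall β with rfl | rfl <;> rcases hall γ with rfl | rfl <;> rcases hall S.zero with h | h
    all_goals first | rfl | exact absurd h.symm hb | exact absurd h.symm hg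
  -- elements outside `P` anticommute exactly with the elements outside `P`
  have k1 : ∀ t, t ∉ P → ∀ v, S.q t v = S.zero ↔ v ∈ P := by
    intro t ht v
    refine ⟨h.o1 t v ht, fun hv => ?_⟩
    by_contra hne
    have h3 : S.q t t ≠ S.zero := fun e => ht (h.o1 t t ht e)
    have h4 : S.q t v = S.q t t := two _ _ hne h3
    have h5 := h.o1 t _ ht ((S.qs3 _ _ _).1 h4)
    apply ht
    have := P.mul_mem (P.inv_mem hv) h5
    rwa [inv_mul_cancel_left] at this
  have k2 : ∀ t, t ∉ P → ∀ t', t' ∉ P → t = t' := by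
    intro t ht t' ht'
    rw [eq_iff_mul S]
    apply h1
    intro b
    rw [S.qs2, ← S.qs3, S.qs2 b t, S.qs2 b t']
    by_cases hb : b ∈ P
    · rw [(k1 t ht b).2 hb, (k1 t' ht' b).2 hb]
    · exact two _ _ (fun e => hb ((k1 t ht b).1 e)) (fun e => hb ((k1 t' ht' b).1 e))
  have k3 : ∀ x ∈ P, x = 1 := by
    intro x hx
    have h3 : S.neg * x ∉ P := by
      intro e
      apply h.neg
      have := P.mul_mem e (P.inv_mem hx)
      rwa [mul_inv_cancel_right] at this
    exact mul_eq_left.1 (k2 _ h3 _ h.neg)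
  have := Fintype.ofFinite S.G
  classical
  have h5 : Fintype.card S.G ≤ ({1, S.neg} : Finset S.G).card := by
    apply Finset.card_le_card
    intro g _
    simp only [Finset.mem_insert, Finset.mem_singleton]
    by_cases hg : g ∈ P
    · exact Or.inl (k3 g hg)
    · exact Or.inr (k2 g hg _ h.neg)
  have h6 : ({1, S.neg} : Finset S.G).card ≤ 2 := Finset.card_le_two
  rw [← Nat.card_eq_fintype_card] at h5
  omega

theorem rig_ext {S : QStruct} (a : S.G) (v : S.G × Multiplicative (ZMod 2))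
    (hq : (QS.ext S).q (a, Multiplicative.ofAdd 1) v = (QS.ext S).zero) :
    v = 1 ∨ v = (S.neg * a, Multiplicative.ofAdd 1) := by
  obtain ⟨b, β⟩ := v
  have h2 : extMap S (a, Multiplicative.ofAdd 1) (b, β) = (S.zero, 1) := congrArg Subtype.val hq
  rcases two_cases β with rfl | rfl
  · rw [extMap_x_one, Prod.mk.injEq] at h2
    left
    rw [h2.2]
    rfl
  · rw [extMap_x_x, Prod.mk.injEq] at h2
    right
    rw [← (eq_iff_mul S (S.neg * a) b).2 h2.2]

theorem exists_rig {S : QStruct} {H : Subgroup (QS.ext S).G} (hne : ∃ a, a ∉ H) :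
    ∃ a : S.G, ((a, Multiplicative.ofAdd 1) : S.G × Multiplicative (ZMod 2)) ∉ H := by
  by_contra hno
  push Not at hno
  obtain ⟨g, hg⟩ := hne
  apply hg
  obtain ⟨b, β⟩ := g
  rcases two_cases β with rfl | rfl
  · have e : ((b, Multiplicative.ofAdd 1) : S.G × Multiplicative (ZMod 2)) *
        (1, Multiplicative.ofAdd 1) = (b, 1) := by
      rw [Prod.mk_mul_mk, mul_one, x_mul_x]
    rw [← e]
    exact H.mul_mem (hno b) (hno 1)
  · exact hno b

theorem neg_neg (S : QStruct) (a : S.G) : S.neg * (S.neg * a) = a := by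
  rw [← mul_assoc, S.exp_two, one_mul]

theorem Po.ext {S : QStruct} {P : Subgroup (QS.ext S).G} (h : Po (QS.ext S) P) :
    Cp (QS.ext S) P := by
  obtain ⟨a, ha⟩ := exists_rig (H := P) ⟨_, h.neg⟩
  -- `-a x` is in `P`
  have hm : ((S.neg * a, Multiplicative.ofAdd 1) : S.G × Multiplicative (ZMod 2)) ∈ P := by
    have e : ((S.neg, 1) : S.G × Multiplicative (ZMod 2)) * (a, Multiplicative.ofAdd 1) =
        (S.neg * a, Multiplicative.ofAdd 1) := by
      rw [Prod.mk_mul_mk, one_mul]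
    rw [← e]
    exact h.mul _ _ h.neg ha
  refine ⟨(a, Multiplicative.ofAdd 1), ha, fun w hw => ?_⟩
  obtain ⟨v, hv, h1, h2⟩ := h.o2 _ w hm hw
  rcases rig_ext (S.neg * a) v h1 with e | e
  · exfalso
    apply hv
    rw [e]
    exact P.one_mem
  · rw [neg_neg] at e
    rw [(QS.ext S).qs2, ← e]
    exact h2

theorem Po.prodL {S T : QStruct} {P : Subgroup (prod S T).G} (h : Po (prod S T) P)
    (hT : ∀ b : T.G, ((1, b) : S.G × T.G) ∈ P)
    (ih : ∀ P : Subgroup S.G, Po S P → Cp S P) : Cp (prod S T) P := by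
  have split : ∀ (a : S.G) (b : T.G), ((a, b) : S.G × T.G) = (a, 1) * (1, b) := by
    intro a b
    rw [Prod.mk_mul_mk, mul_one, one_mul]
  have e2 : ∀ (a : S.G) (b : T.G), ((a, b) : S.G × T.G) * (1, b) = (a, 1) := by
    intro a b
    rw [Prod.mk_mul_mk, mul_one, T.exp_two]
  have hH : ∀ (a : S.G) (b : T.G), ((a, b) : S.G × T.G) ∈ P ↔ ((a, 1) : S.G × T.G) ∈ P := by
    intro a b
    constructor
    · intro h1
      rw [← e2 a b]
      exact P.mul_mem h1 (hT b)
    · intro h1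
      rw [split]
      exact P.mul_mem h1 (hT b)
  let ι : S.G →* S.G × T.G := MonoidHom.inl S.G T.G
  have hmH : ∀ a, a ∈ (P.comap ι : Subgroup S.G) ↔ ((a, 1) : S.G × T.G) ∈ P := fun a => Iff.rfl
  obtain ⟨e, he, hew⟩ := ih (P.comap ι) (by
    refine ⟨?_, ?_, ?_, ?_⟩
    · intro hn
      exact h.neg ((hH S.neg T.neg).2 hn)
    · intro a b ha hb
      rw [hmH] at *
      have e : ((a, 1) : S.G × T.G) * (b, 1) = (a * b, 1) := by
        rw [Prod.mk_mul_mk, mul_one]
      rw [← e]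
      exact h.mul _ _ ha hb
    · intro t v ht hq
      rw [hmH] at *
      apply h.o1 _ _ ht
      show ((S.q t v, T.q 1 1) : S.Q × T.Q) = (S.zero, T.zero)
      rw [hq, T.q_one]
    · intro t w ht hw
      obtain ⟨⟨v1, v2⟩, hv, h1, h2⟩ := h.o2 _ _ ht hw
      refine ⟨v1, ?_, congrArg Prod.fst h1, congrArg Prod.fst h2⟩
      rw [hmH]
      exact fun e => hv ((hH v1 v2).2 e))
  refine ⟨(e, 1), he, ?_⟩
  rintro ⟨w1, w2⟩ hw
  show ((S.q e w1, T.q 1 w2) : S.Q × T.Q) = (S.zero, T.zero)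
  rw [q_one', hew w1 ((hH w1 w2).1 hw)]

theorem Po.iso {S T : QStruct} (φ : S.G ≃* T.G) (hn : φ S.neg = T.neg)
    (hφ : ∀ a b c d, S.q a b = S.q c d ↔ T.q (φ a) (φ b) = T.q (φ c) (φ d))
    {P : Subgroup T.G} (h : Po T P)
    (ih : Po S (P.comap φ.toMonoidHom) → Cp S (P.comap φ.toMonoidHom)) : Cp T P := by
  have hz : ∀ a b, S.q a b = S.zero ↔ T.q (φ a) (φ b) = T.zero := by
    intro a b
    have h1 := hφ a b 1 1
    rwa [S.q_one, map_one, T.q_one] at h1
  have hmH : ∀ a, a ∈ (P.comap φ.toMonoidHom : Subgroup S.G) ↔ φ a ∈ P := fun a => Iff.rfl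
  obtain ⟨t, ht, htw⟩ := ih (by
    refine ⟨?_, ?_, ?_, ?_⟩
    · rw [hmH, hn]; exact h.neg
    · intro a b ha hb
      rw [hmH] at *
      rw [map_mul]
      exact h.mul _ _ ha hb
    · intro t v ht hq
      rw [hmH] at *
      exact h.o1 _ _ ht ((hz _ _).1 hq)
    · intro t w ht hw
      obtain ⟨v, hv, h1, h2⟩ := h.o2 _ _ ht hw
      refine ⟨φ.symm v, ?_, ?_, ?_⟩
      · rw [hmH, φ.apply_symm_apply]; exact hv
      · rw [hz, φ.apply_symm_apply]; exact h1
      · rw [hz, φ.apply_symm_apply]; exact h2)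
  refine ⟨φ t, ht, fun w hw => ?_⟩
  have h1 := htw (φ.symm w) (by rw [hmH, φ.apply_symm_apply]; exact hw)
  rw [hz, φ.apply_symm_apply] at h1
  exact h1

theorem swap_neg (S T : QStruct) : (MulEquiv.prodComm : T.G × S.G ≃* S.G × T.G)
    (QS.prod T S).neg = (QS.prod S T).neg := rfl

/-- **Ordering lemma**: in a structure of elementary type, an ordering `P` such that any two elements
of `P` commute with a common element outside `P` is a factor. -/
theorem orl (S : QStruct) (hE : ElemType S) : ∀ P : Subgroup S.G, Po S P → Cp S P := by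
  induction hE with
  | L0 S h =>
    intro P hp
    exfalso
    apply hp.neg
    have : Subsingleton S.G := (Nat.card_eq_one_iff_unique.1 h).1
    rw [Subsingleton.elim S.neg 1]
    exact P.one_mem
  | L10 S h _ _ => exact fun P hp => hp.two h
  | L11 S h _ _ => exact fun P hp => hp.two h
  | L1 S h _ _ => exact fun P hp => hp.two h
  | loc S hf h h1 h2 => exact fun P hp => (hp.loc hf h h1 h2).elim
  | ext S _ _ => exact fun P hp => hp.ext
  | iso S T h1 _ ih =>
    obtain ⟨φ, hφn, hφ⟩ := h1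
    exact fun P hp => hp.iso φ hφn hφ (ih _)
  | prod S T _ _ ihS ihT =>
    intro P hp
    by_cases hb : ∀ b : T.G, ((1, b) : S.G × T.G) ∈ P
    · exact hp.prodL hb ihS
    by_cases ha : ∀ a : S.G, ((a, 1) : S.G × T.G) ∈ P
    · apply hp.iso (S := QS.prod T S) (T := QS.prod S T) MulEquiv.prodComm (swap_neg S T)
        (fun a b c d => swap_q T S a b c d)
      intro hp'
      exact hp'.prodL (fun b => ha b) ihT
    · push Not at ha hb
      obtain ⟨a, ha⟩ := ha
      obtain ⟨b, hb⟩ := hb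
      exfalso
      apply hb
      apply hp.o1 (a, 1) (1, b) ha
      show ((S.q a 1, T.q 1 b) : S.Q × T.Q) = (S.zero, T.zero)
      rw [S.q_one, q_one']

/-- the hypotheses of (3.2) -/
structure Pt (S : QStruct) (H W : Subgroup S.G) : Prop where
  ne : ∃ a, a ∉ H
  mul : ∀ a b, a ∉ H → b ∉ H → a * b ∈ H
  neg : S.neg ∈ H
  le : W ≤ H
  pa : ∀ t h, t ∉ H → h ∈ H → S.q t h = S.zero → h ∈ W
  pb : ∀ t w, t ∉ H → w ∈ W → ∃ v, v ∉ H ∧ S.q t v = S.zero ∧ S.q w v = S.zero

/-- the conclusion of (3.2): `W` is a factor -/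
structure CoY (S : QStruct) (W Y : Subgroup S.G) : Prop where
  dis : ∀ x ∈ Y, x ∈ W → x = 1
  cov : ∀ g, ∃ y ∈ Y, ∃ w ∈ W, g = y * w
  com : ∀ y ∈ Y, ∀ w ∈ W, S.q y w = S.zero
  pro : ∀ y ∈ Y, ∀ w ∈ W, ∀ y' ∈ Y, ∀ w' ∈ W, S.q (y * w) (y' * w') = S.zero → S.q w w' = S.zero

def Co (S : QStruct) (W : Subgroup S.G) : Prop := ∃ Y, CoY S W Y

theorem Pt.old {S : QStruct} {H W : Subgroup S.G} (h : Pt S H W) : Pool.Agent.ETCR.Pt S H W :=
  ⟨h.ne, h.mul, h.le, h.pa, h.pb⟩

theorem Pt.loc {S : QStruct} {H W : Subgroup S.G} (h : Pt S H W)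
    (hf : Finite S.G) (h8 : 8 ≤ Nat.card S.G) (h1 : ∀ a, (∀ b, S.q a b = S.zero) → a = 1)
    (h2 : Nat.card S.Q = 2) : W = H := by
  have two : ∀ β γ : S.Q, β ≠ S.zero → γ ≠ S.zero → β = γ := by
    obtain ⟨p, r, hpr, hu⟩ := Nat.card_eq_two_iff.1 h2
    have hall : ∀ x : S.Q, x = p ∨ x = r := by
      intro x
      have : x ∈ ({p, r} : Set S.Q) := by rw [hu]; trivial
      simpa using this
    intro β γ hb hg
    rcases hall β with rfl | rfl <;> rcases hall γ with rfl | rfl <;> rcases hall S.zero with h | h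
    all_goals first | rfl | exact absurd h.symm hb | exact absurd h.symm hg
  -- an element of `H` outside `W` satisfies `V_h = H`
  have key : ∀ x ∈ H, x ∉ W → ∀ t, S.q x t = S.zero ↔ t ∈ H := by
    intro x hx hxW
    have k1 : ∀ t, S.q x t = S.zero → t ∈ H := by
      intro t ht
      by_contra htH
      exact hxW (h.pa t x htH hx (by rw [S.qs2, ht]))
    intro t
    refine ⟨k1 t, fun ht => ?_⟩
    by_contra hne
    obtain ⟨a, ha⟩ := h.ne
    have k2 : S.q x a ≠ S.zero := fun e => ha (k1 a e)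
    have k3 : S.q x t = S.q x a := two _ _ hne k2
    have k4 := k1 _ ((S.qs3 _ _ _).1 k3)
    apply ha
    have := H.mul_mem (H.inv_mem ht) k4
    rwa [inv_mul_cancel_left] at this
  have uniq : ∀ x ∈ H, x ∉ W → ∀ y ∈ H, y ∉ W → x = y := by
    intro x hx hxW y hy hyW
    rw [eq_iff_mul S]
    apply h1
    intro b
    rw [S.qs2, ← S.qs3, S.qs2 b x, S.qs2 b y]
    by_cases hb : b ∈ H
    · rw [(key x hx hxW b).2 hb, (key y hy hyW b).2 hb]
    · exact two _ _ (fun e => hb ((key x hx hxW b).1 e)) (fun e => hb ((key y hy hyW b).1 e))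
  apply le_antisymm h.le
  intro x hx
  by_contra hxW
  have hW : ∀ y ∈ W, y = 1 := by
    intro y hy
    have h3 : x * y ∉ W := by
      intro e
      apply hxW
      have := W.mul_mem e (W.inv_mem hy)
      rwa [mul_inv_cancel_right] at this
    have h4 := uniq x hx hxW (x * y) (H.mul_mem hx (h.le hy)) h3
    exact (mul_eq_left.1 h4.symm)
  -- then `H = {1, x}` and `G` has four elements
  obtain ⟨a, ha⟩ := h.ne
  have hall : ∀ g : S.G, g = 1 ∨ g = x ∨ g = a ∨ g = x * a := by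
    have hH : ∀ g ∈ H, g = 1 ∨ g = x := by
      intro g hg
      by_cases hgW : g ∈ W
      · exact Or.inl (hW g hgW)
      · exact Or.inr (uniq g hg hgW x hx hxW)
    intro g
    by_cases hg : g ∈ H
    · rcases hH g hg with e | e
      · exact Or.inl e
      · exact Or.inr (Or.inl e)
    · have h5 := hH _ (h.mul g a hg ha)
      rcases h5 with e | e
      · right; right; left
        exact (eq_iff_mul S g a).2 e
      · right; right; right
        calc g = g * a * a := by rw [mul_assoc, S.exp_two, mul_one]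
          _ = x * a := by rw [e]
  have := Fintype.ofFinite S.G
  classical
  have h5 : Fintype.card S.G ≤ ({1, x, a, x * a} : Finset S.G).card := by
    apply Finset.card_le_card
    intro g _
    simp only [Finset.mem_insert, Finset.mem_singleton]
    exact hall g
  have h6 : ({1, x, a, x * a} : Finset S.G).card ≤ 4 := Finset.card_le_four
  rw [← Nat.card_eq_fintype_card] at h5
  omega

theorem Pt.ext {S : QStruct} {H W : Subgroup (QS.ext S).G}
    (h : Pt (QS.ext S) H W) : Co (QS.ext S) W := by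
  obtain ⟨a, ha⟩ := exists_rig (H := H) h.ne
  have hm : ((S.neg * a, Multiplicative.ofAdd 1) : S.G × Multiplicative (ZMod 2)) ∉ H := by
    intro hin
    apply ha
    have e : ((S.neg, 1) : S.G × Multiplicative (ZMod 2)) * (S.neg * a, Multiplicative.ofAdd 1) =
        (a, Multiplicative.ofAdd 1) := by
      rw [Prod.mk_mul_mk, one_mul, neg_neg]
    rw [← e]
    exact H.mul_mem h.neg hin
  have key : ∀ b : S.G, ((b, Multiplicative.ofAdd 1) : S.G × Multiplicative (ZMod 2)) ∉ H →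
      ∀ w ∈ W, (QS.ext S).q (S.neg * b, Multiplicative.ofAdd 1) w = (QS.ext S).zero := by
    intro b hb w hw
    obtain ⟨v, hv, h1, h2⟩ := h.pb _ w hb hw
    rcases rig_ext b v h1 with e | e
    · exfalso
      apply hv
      rw [e]
      exact H.one_mem
    · rw [(QS.ext S).qs2, ← e]
      exact h2
  have hW : ∀ w ∈ W, w = 1 := by
    intro w hw
    rcases rig_ext (S.neg * a) w (key a ha w hw) with e | e
    · exact e
    · exfalso
      rw [neg_neg] at e
      exact ha (e ▸ h.le hw)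
  refine ⟨⊤, ?_, ?_, ?_, ?_⟩
  · exact fun x _ hx => hW x hx
  · exact fun g => ⟨g, trivial, 1, W.one_mem, (mul_one g).symm⟩
  · intro y _ w hw
    rw [hW w hw]
    exact (QS.ext S).q_one y
  · intro y _ w hw y' _ w' hw' _
    rw [hW w hw]
    exact q_one' _ _

theorem Pt.prodL {S T : QStruct} {H W : Subgroup (prod S T).G} (h : Pt (prod S T) H W)
    (hT : ∀ b : T.G, ((1, b) : S.G × T.G) ∈ H) (hne : W ≠ H)
    (ih : ∀ H W : Subgroup S.G, Pt S H W → W ≠ H → Co S W) : Co (prod S T) W := by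
  have split : ∀ (a : S.G) (b : T.G), ((a, b) : S.G × T.G) = (a, 1) * (1, b) := by
    intro a b
    rw [Prod.mk_mul_mk, mul_one, one_mul]
  have e2 : ∀ (a : S.G) (b : T.G), ((a, b) : S.G × T.G) * (1, b) = (a, 1) := by
    intro a b
    rw [Prod.mk_mul_mk, mul_one, T.exp_two]
  have hH : ∀ (a : S.G) (b : T.G), ((a, b) : S.G × T.G) ∈ H ↔ ((a, 1) : S.G × T.G) ∈ H := by
    intro a b
    constructor
    · intro h1
      rw [← e2 a b]
      exact H.mul_mem h1 (hT b)
    · intro h1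
      rw [split]
      exact H.mul_mem h1 (hT b)
  obtain ⟨⟨a0, b0⟩, h0⟩ := h.ne
  have ha0 : ((a0, 1) : S.G × T.G) ∉ H := fun e => h0 ((hH a0 b0).2 e)
  have hTW : ∀ b : T.G, ((1, b) : S.G × T.G) ∈ W := by
    intro b
    apply h.pa (a0, 1) (1, b) ha0 (hT b)
    show ((S.q a0 1, T.q 1 b) : S.Q × T.Q) = (S.zero, T.zero)
    rw [S.q_one, q_one']
  have hWW : ∀ (a : S.G) (b : T.G), ((a, b) : S.G × T.G) ∈ W ↔ ((a, 1) : S.G × T.G) ∈ W := by
    intro a b
    constructor
    · intro h1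
      rw [← e2 a b]
      exact W.mul_mem h1 (hTW b)
    · intro h1
      rw [split]
      exact W.mul_mem h1 (hTW b)
  let ι : S.G →* S.G × T.G := MonoidHom.inl S.G T.G
  have hmH : ∀ a, a ∈ (H.comap ι : Subgroup S.G) ↔ ((a, 1) : S.G × T.G) ∈ H := fun a => Iff.rfl
  have hmW : ∀ a, a ∈ (W.comap ι : Subgroup S.G) ↔ ((a, 1) : S.G × T.G) ∈ W := fun a => Iff.rfl
  obtain ⟨Y, hY⟩ := ih (H.comap ι) (W.comap ι) (by
    refine ⟨⟨a0, ha0⟩, ?_, ?_, ?_, ?_, ?_⟩
    · intro a b ha hb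
      rw [hmH] at *
      have e : ((a, 1) : S.G × T.G) * (b, 1) = (a * b, 1) := by
        rw [Prod.mk_mul_mk, mul_one]
      rw [← e]
      exact h.mul _ _ ha hb
    · rw [hmH]
      exact (hH S.neg T.neg).1 h.neg
    · intro a ha
      exact h.le ha
    · intro t x ht hx hq
      rw [hmH] at *
      rw [hmW]
      apply h.pa _ _ ht hx
      show ((S.q t x, T.q 1 1) : S.Q × T.Q) = (S.zero, T.zero)
      rw [hq, T.q_one]
    · intro t w ht hw
      rw [hmH] at ht
      rw [hmW] at hw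
      obtain ⟨⟨v1, v2⟩, hv, h1, h2⟩ := h.pb _ _ ht hw
      refine ⟨v1, ?_, congrArg Prod.fst h1, congrArg Prod.fst h2⟩
      rw [hmH]
      exact fun e => hv ((hH v1 v2).2 e)) (by
    intro e
    apply hne
    apply Subgroup.ext
    rintro ⟨a, b⟩
    exact (hWW a b).trans ((show a ∈ (W.comap ι : Subgroup S.G) ↔ a ∈ (H.comap ι : Subgroup S.G) by
      rw [e]).trans (hH a b).symm))
  refine ⟨Y.map ι, ?_, ?_, ?_, ?_⟩
  · rintro _ ⟨y, hy, rfl⟩ hyW
    rw [hY.dis y hy hyW, map_one]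
  · rintro ⟨a, b⟩
    obtain ⟨y, hy, w, hw, e⟩ := hY.cov a
    refine ⟨(y, 1), ⟨y, hy, rfl⟩, (w, b), (hWW w b).2 hw, ?_⟩
    show ((a, b) : S.G × T.G) = (y * w, 1 * b)
    rw [one_mul, e]
  · rintro _ ⟨y, hy, rfl⟩ ⟨w1, w2⟩ hw
    show ((S.q y w1, T.q 1 w2) : S.Q × T.Q) = (S.zero, T.zero)
    rw [q_one', hY.com y hy w1 ((hWW w1 w2).1 hw)]
  · rintro _ ⟨y, hy, rfl⟩ ⟨w1, w2⟩ hw _ ⟨y', hy', rfl⟩ ⟨w1', w2'⟩ hw' hq
    have h1 : S.q (y * w1) (y' * w1') = S.zero := congrArg Prod.fst hq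
    have h2 : T.q (1 * w2) (1 * w2') = T.zero := congrArg Prod.snd hq
    rw [one_mul, one_mul] at h2
    show ((S.q w1 w1', T.q w2 w2') : S.Q × T.Q) = (S.zero, T.zero)
    rw [h2, hY.pro y hy w1 ((hWW w1 w2).1 hw) y' hy' w1' ((hWW w1' w2').1 hw') h1]

theorem Pt.iso {S T : QStruct} (φ : S.G ≃* T.G) (hn : φ S.neg = T.neg)
    (hφ : ∀ a b c d, S.q a b = S.q c d ↔ T.q (φ a) (φ b) = T.q (φ c) (φ d))
    {H W : Subgroup T.G} (h : Pt T H W) (hne : W ≠ H)
    (ih : Pt S (H.comap φ.toMonoidHom) (W.comap φ.toMonoidHom) →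
      W.comap φ.toMonoidHom ≠ H.comap φ.toMonoidHom →
      Co S (W.comap φ.toMonoidHom)) : Co T W := by
  have hz : ∀ a b, S.q a b = S.zero ↔ T.q (φ a) (φ b) = T.zero := by
    intro a b
    have h1 := hφ a b 1 1
    rwa [S.q_one, map_one, T.q_one] at h1
  have hmH : ∀ a, a ∈ (H.comap φ.toMonoidHom : Subgroup S.G) ↔ φ a ∈ H := fun a => Iff.rfl
  have hmW : ∀ a, a ∈ (W.comap φ.toMonoidHom : Subgroup S.G) ↔ φ a ∈ W := fun a => Iff.rfl
  obtain ⟨Y, hY⟩ := ih (by
    refine ⟨?_, ?_, ?_, ?_, ?_, ?_⟩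
    · obtain ⟨a, ha⟩ := h.ne
      refine ⟨φ.symm a, ?_⟩
      rw [hmH, φ.apply_symm_apply]
      exact ha
    · intro a b ha hb
      rw [hmH] at *
      rw [map_mul]
      exact h.mul _ _ ha hb
    · rw [hmH, hn]; exact h.neg
    · intro a ha
      exact h.le ha
    · intro t x ht hx hq
      rw [hmH] at *
      exact h.pa _ _ ht hx ((hz t x).1 hq)
    · intro t w ht hw
      obtain ⟨v, hv, h1, h2⟩ := h.pb _ _ ht hw
      refine ⟨φ.symm v, ?_, ?_, ?_⟩
      · rw [hmH, φ.apply_symm_apply]; exact hv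
      · rw [hz, φ.apply_symm_apply]; exact h1
      · rw [hz, φ.apply_symm_apply]; exact h2) (by
    intro e
    apply hne
    ext a
    rw [← φ.apply_symm_apply a, ← hmW, ← hmH, e])
  have hmem : ∀ w ∈ W, φ.symm w ∈ (W.comap φ.toMonoidHom : Subgroup S.G) := by
    intro w hw
    rw [hmW, φ.apply_symm_apply]; exact hw
  refine ⟨Y.map φ.toMonoidHom, ?_, ?_, ?_, ?_⟩
  · rintro _ ⟨y, hy, rfl⟩ hyW
    rw [hY.dis y hy hyW, map_one]
  · intro g
    obtain ⟨y, hy, w, hw, e⟩ := hY.cov (φ.symm g)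
    refine ⟨φ y, ⟨y, hy, rfl⟩, φ w, hw, ?_⟩
    rw [← map_mul, ← e, φ.apply_symm_apply]
  · rintro _ ⟨y, hy, rfl⟩ w hw
    have h1 := (hz _ _).1 (hY.com y hy _ (hmem w hw))
    rw [φ.apply_symm_apply] at h1
    exact h1
  · rintro _ ⟨y, hy, rfl⟩ w hw _ ⟨y', hy', rfl⟩ w' hw' hq
    have h1 := (hz _ _).1 (hY.pro y hy _ (hmem w hw) y' hy' _ (hmem w' hw') ((hz _ _).2 (by
      rw [map_mul, map_mul, φ.apply_symm_apply, φ.apply_symm_apply]
      exact hq)))
    rw [φ.apply_symm_apply, φ.apply_symm_apply] at h1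
    exact h1

end Pool.Agent.ETCMR
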