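import Pool.Agent.ETCMR.Etf

/-!
# Step (3.2) of RK1 for any `-1`: the case of two components, and the result
-/

set_option autoImplicit false
set_option linter.unusedSimpArgs false
set_option linter.unnecessarySeqFocus false
set_option linter.unusedSectionVars false
set_option linter.unusedVariables false

namespace Pool.Agent.ETCMR

open QS
open Pool.Agent.ETCR (q_one' swap_q)

/-- the subgroup `{1, e}` -/
def pr (S : QStruct) (e : S.G) : Subgroup S.G where
  carrier := {x | x = 1 ∨ x = e}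
  one_mem' := Or.inl rfl
  mul_mem' := by
    rintro a b (rfl | rfl) (rfl | rfl)
    · exact Or.inl (one_mul 1)
    · exact Or.inr (one_mul _)
    · exact Or.inr (mul_one _)
    · exact Or.inl (S.exp_two _)
  inv_mem' := by
    intro a ha
    have : a⁻¹ = a := by rw [inv_eq_iff_mul_eq_one, S.exp_two]
    rw [this]; exact ha

theorem mem_pr {S : QStruct} {e x : S.G} : x ∈ pr S e ↔ (x = 1 ∨ x = e) := Iff.rfl

theorem comp_pro {S : QStruct} {P : Subgroup S.G} {e : S.G}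
    (o1 : ∀ t v, t ∉ P → S.q t v = S.zero → v ∈ P) (he : e ∉ P)
    (hc : ∀ w ∈ P, S.q e w = S.zero) {x x' p r : S.G} (hx : x ∈ pr S e) (hx' : x' ∈ pr S e)
    (hp : p ∈ P) (hr : r ∈ P) (h : S.q (x * p) (x' * r) = S.zero) : S.q p r = S.zero := by
  have hne : ∀ r ∈ P, e * r ∉ P := by
    intro r hr hin
    apply he
    have := P.mul_mem hin (P.inv_mem hr)
    rwa [mul_inv_cancel_right] at this
  have key : ∀ p ∈ P, ∀ r, S.q p (e * r) = S.zero → S.q p r = S.zero := by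
    intro p hp r hq
    have h1 : S.q p e = S.q p r := (S.qs3 _ _ _).2 hq
    rw [← h1, S.qs2]
    exact hc p hp
  rcases mem_pr.1 hx with rfl | rfl <;> rcases mem_pr.1 hx' with rfl | rfl
  · rwa [one_mul, one_mul] at h
  · rw [one_mul] at h
    exact key p hp r h
  · rw [one_mul] at h
    rw [S.qs2]
    rw [S.qs2] at h
    exact key r hr p h
  · exact absurd (o1 _ _ (hne p hp) h) (hne r hr)

theorem comp_com {S : QStruct} {P : Subgroup S.G} {e : S.G}
    (hc : ∀ w ∈ P, S.q e w = S.zero) {x p : S.G} (hx : x ∈ pr S e) (hp : p ∈ P) :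
    S.q x p = S.zero := by
  rcases mem_pr.1 hx with rfl | rfl
  · exact q_one' S p
  · exact hc p hp

theorem Pt.both {S T : QStruct} (hS : ElemType S) (hT : ElemType T)
    {H W : Subgroup (prod S T).G} (h : Pt (prod S T) H W)
    (ha : ∃ a : S.G, ((a, 1) : S.G × T.G) ∉ H) (hb : ∃ b : T.G, ((1, b) : S.G × T.G) ∉ H)
    (hne : W ≠ H) : Co (prod S T) W := by
  obtain ⟨a, ha⟩ := ha
  obtain ⟨b, hb⟩ := hb
  have w1 : ∀ x : S.G, ((x, 1) : S.G × T.G) ∈ H → ((x, 1) : S.G × T.G) ∈ W := by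
    intro x hx
    apply h.pa (1, b) _ hb hx
    show ((S.q 1 x, T.q b 1) : S.Q × T.Q) = (S.zero, T.zero)
    rw [q_one', T.q_one]
  have w2 : ∀ x : T.G, ((1, x) : S.G × T.G) ∈ H → ((1, x) : S.G × T.G) ∈ W := by
    intro x hx
    apply h.pa (a, 1) _ ha hx
    show ((S.q a 1, T.q 1 x) : S.Q × T.Q) = (S.zero, T.zero)
    rw [q_one', S.q_one]
  have e1 : ∀ (x : S.G) (y : T.G), ((x, y) : S.G × T.G) = (x, 1) * (1, y) := by
    intro x y
    rw [Prod.mk_mul_mk, mul_one, one_mul]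
  have e2 : ∀ (x : S.G) (y : T.G), ((x, y) : S.G × T.G) * (x, 1) = (1, y) := by
    intro x y
    rw [Prod.mk_mul_mk, mul_one, S.exp_two]
  have e3 : ∀ (x : S.G) (y : T.G), ((x, y) : S.G × T.G) * (1, y) = (x, 1) := by
    intro x y
    rw [Prod.mk_mul_mk, mul_one, T.exp_two]
  have m1 : ∀ (x : S.G) (y : T.G), ((x, y) : S.G × T.G) ∈ H → ((x, 1) : S.G × T.G) ∈ H →
      ((1, y) : S.G × T.G) ∈ H := by
    intro x y h1 h2
    rw [← e2 x y]; exact H.mul_mem h1 h2
  have m2 : ∀ (x : S.G) (y : T.G), ((x, y) : S.G × T.G) ∈ H → ((1, y) : S.G × T.G) ∈ H →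
      ((x, 1) : S.G × T.G) ∈ H := by
    intro x y h1 h2
    rw [← e3 x y]; exact H.mul_mem h1 h2
  have m3 : ∀ (x : S.G) (y : T.G), ((x, 1) : S.G × T.G) ∉ H → ((1, y) : S.G × T.G) ∉ H →
      ((x, y) : S.G × T.G) ∈ H := by
    intro x y h1 h2
    rw [e1]; exact h.mul _ _ h1 h2
  have key : ∀ (x0 : S.G) (y0 : T.G), ((x0, y0) : S.G × T.G) ∈ W →
      ((x0, 1) : S.G × T.G) ∈ H := by
    intro x0 y0 h0
    by_contra h1
    have h1' : ((1, y0) : S.G × T.G) ∉ H := fun h2 => h1 (m2 x0 y0 (h.le h0) h2)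
    apply hne
    apply le_antisymm h.le
    rintro ⟨x, y⟩ hxy
    have fin : ∀ x y, ((x, 1) : S.G × T.G) ∈ H → ((1, y) : S.G × T.G) ∈ H →
        ((x, y) : S.G × T.G) ∈ W := by
      intro x y h3 h4
      rw [e1]
      exact W.mul_mem (w1 x h3) (w2 y h4)
    by_cases hx : ((x, 1) : S.G × T.G) ∈ H
    · exact fin x y hx (m1 x y hxy hx)
    · have hy : ((1, y) : S.G × T.G) ∉ H := fun h2 => hx (m2 x y hxy h2)
      have h3 : ((x * x0, 1) : S.G × T.G) ∈ H := by
        have := h.mul _ _ hx h1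
        have e : ((x, 1) : S.G × T.G) * (x0, 1) = (x * x0, 1) := by
          rw [Prod.mk_mul_mk, mul_one]
        rw [← e]; exact this
      have h4 : ((1, y * y0) : S.G × T.G) ∈ H := by
        have := h.mul _ _ hy h1'
        have e : ((1, y) : S.G × T.G) * (1, y0) = (1, y * y0) := by
          rw [Prod.mk_mul_mk, mul_one]
        rw [← e]; exact this
      have h5 := W.mul_mem (fin _ _ h3 h4) h0
      have e : ((x * x0, y * y0) : S.G × T.G) * (x0, y0) = (x, y) := by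
        rw [Prod.mk_mul_mk, mul_assoc, S.exp_two, mul_one, mul_assoc, T.exp_two, mul_one]
      rw [← e]; exact h5
  let ι : S.G →* S.G × T.G := MonoidHom.inl S.G T.G
  let κ : T.G →* S.G × T.G := MonoidHom.inr S.G T.G
  have hmS : ∀ x, x ∈ (H.comap ι : Subgroup S.G) ↔ ((x, 1) : S.G × T.G) ∈ H := fun x => Iff.rfl
  have hmT : ∀ x, x ∈ (H.comap κ : Subgroup T.G) ↔ ((1, x) : S.G × T.G) ∈ H := fun x => Iff.rfl
  have oS : ∀ t v, t ∉ (H.comap ι : Subgroup S.G) → S.q t v = S.zero →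
      v ∈ (H.comap ι : Subgroup S.G) := by
    intro t v ht hq
    by_contra hv
    have h1 := m3 v b hv hb
    have h2 : ((v, b) : S.G × T.G) ∈ W := by
      apply h.pa _ _ ht h1
      show ((S.q t v, T.q 1 b) : S.Q × T.Q) = (S.zero, T.zero)
      rw [hq, q_one']
    exact hv (key v b h2)
  have oT : ∀ t v, t ∉ (H.comap κ : Subgroup T.G) → T.q t v = T.zero →
      v ∈ (H.comap κ : Subgroup T.G) := by
    intro t v ht hq
    by_contra hv
    have h1 := m3 a v ha hv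
    have h2 : ((a, v) : S.G × T.G) ∈ W := by
      apply h.pa _ _ ht h1
      show ((S.q 1 a, T.q t v) : S.Q × T.Q) = (S.zero, T.zero)
      rw [hq, q_one']
    exact ha (key a v h2)
  have nS : S.neg ∉ (H.comap ι : Subgroup S.G) := by
    intro hn
    have h1 := oS a (S.neg * a) ha (S.qs1 a)
    have h2 := (H.comap ι).mul_mem hn h1
    rw [neg_neg] at h2
    exact ha h2
  have nT : T.neg ∉ (H.comap κ : Subgroup T.G) := by
    intro hn
    have h1 := oT b (T.neg * b) hb (T.qs1 b)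
    have h2 := (H.comap κ).mul_mem hn h1
    rw [neg_neg] at h2
    exact hb h2
  have PS : Po S (H.comap ι) := by
    refine ⟨nS, ?_, oS, ?_⟩
    · intro x y hx hy
      have := h.mul _ _ hx hy
      have e : ((x, 1) : S.G × T.G) * (y, 1) = (x * y, 1) := by
        rw [Prod.mk_mul_mk, mul_one]
      rw [hmS, ← e]; exact this
    · intro t w ht hw
      have h1 : ((t, b) : S.G × T.G) ∉ H := fun h2 => hb (m1 t b h2 ht)
      obtain ⟨⟨v1, v2⟩, hv, h2, h3⟩ := h.pb _ _ h1 (w1 w hw)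
      refine ⟨v1, ?_, congrArg Prod.fst h2, congrArg Prod.fst h3⟩
      have h4 : v2 ∈ (H.comap κ : Subgroup T.G) := oT b v2 hb (congrArg Prod.snd h2)
      intro h5
      apply hv
      rw [e1]
      exact H.mul_mem ((hmS v1).1 h5) ((hmT v2).1 h4)
  have PT : Po T (H.comap κ) := by
    refine ⟨nT, ?_, oT, ?_⟩
    · intro x y hx hy
      have := h.mul _ _ hx hy
      have e : ((1, x) : S.G × T.G) * (1, y) = (1, x * y) := by
        rw [Prod.mk_mul_mk, mul_one]
      rw [hmT, ← e]; exact this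
    · intro t w ht hw
      have h1 : ((a, t) : S.G × T.G) ∉ H := fun h2 => ha (m2 a t h2 ht)
      obtain ⟨⟨v1, v2⟩, hv, h2, h3⟩ := h.pb _ _ h1 (w2 w hw)
      refine ⟨v2, ?_, congrArg Prod.snd h2, congrArg Prod.snd h3⟩
      have h4 : v1 ∈ (H.comap ι : Subgroup S.G) := oS a v1 ha (congrArg Prod.fst h2)
      intro h5
      apply hv
      rw [e1]
      exact H.mul_mem ((hmS v1).1 h4) ((hmT v2).1 h5)
  obtain ⟨e, he, hce⟩ := orl S hS _ PS
  obtain ⟨d, hd, hcd⟩ := orl T hT _ PT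
  have hWS : ∀ (x : S.G) (y : T.G), ((x, y) : S.G × T.G) ∈ W →
      x ∈ (H.comap ι : Subgroup S.G) ∧ y ∈ (H.comap κ : Subgroup T.G) := by
    intro x y hxy
    have h1 := key x y hxy
    exact ⟨h1, m1 x y (h.le hxy) h1⟩
  have hWS' : ∀ (x : S.G) (y : T.G), x ∈ (H.comap ι : Subgroup S.G) →
      y ∈ (H.comap κ : Subgroup T.G) → ((x, y) : S.G × T.G) ∈ W := by
    intro x y hx hy
    rw [e1]
    exact W.mul_mem (w1 x hx) (w2 y hy)
  have dS : ∀ x ∈ pr S e, x ∈ (H.comap ι : Subgroup S.G) → x = 1 := by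
    intro x hx hxP
    rcases mem_pr.1 hx with e' | e'
    · exact e'
    · exact absurd (e' ▸ hxP) he
  have dT : ∀ x ∈ pr T d, x ∈ (H.comap κ : Subgroup T.G) → x = 1 := by
    intro x hx hxP
    rcases mem_pr.1 hx with e' | e'
    · exact e'
    · exact absurd (e' ▸ hxP) hd
  have cS : ∀ x : S.G, ∃ y ∈ pr S e, ∃ w ∈ (H.comap ι : Subgroup S.G), x = y * w := by
    intro x
    by_cases hx : x ∈ (H.comap ι : Subgroup S.G)
    · exact ⟨1, Or.inl rfl, x, hx, (one_mul x).symm⟩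
    · refine ⟨e, Or.inr rfl, e * x, PS.mul _ _ he hx, ?_⟩
      rw [← mul_assoc, S.exp_two, one_mul]
  have cT : ∀ x : T.G, ∃ y ∈ pr T d, ∃ w ∈ (H.comap κ : Subgroup T.G), x = y * w := by
    intro x
    by_cases hx : x ∈ (H.comap κ : Subgroup T.G)
    · exact ⟨1, Or.inl rfl, x, hx, (one_mul x).symm⟩
    · refine ⟨d, Or.inr rfl, d * x, PT.mul _ _ hd hx, ?_⟩
      rw [← mul_assoc, T.exp_two, one_mul]
  refine ⟨(pr S e).prod (pr T d), ?_, ?_, ?_, ?_⟩
  · rintro ⟨x, y⟩ hxy hW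
    obtain ⟨h1, h2⟩ := Subgroup.mem_prod.1 hxy
    obtain ⟨h3, h4⟩ := hWS x y hW
    exact Prod.ext (dS x h1 h3) (dT y h2 h4)
  · rintro ⟨x, y⟩
    obtain ⟨x1, hx1, p, hp, ex⟩ := cS x
    obtain ⟨y1, hy1, p', hp', ey⟩ := cT y
    refine ⟨(x1, y1), Subgroup.mem_prod.2 ⟨hx1, hy1⟩, (p, p'), hWS' p p' hp hp', ?_⟩
    exact Prod.ext ex ey
  · rintro ⟨x, y⟩ hxy ⟨p, p'⟩ hW
    obtain ⟨h1, h2⟩ := Subgroup.mem_prod.1 hxy
    obtain ⟨h3, h4⟩ := hWS p p' hW
    exact Prod.ext (comp_com hce h1 h3) (comp_com hcd h2 h4)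
  · rintro ⟨x, y⟩ hxy ⟨p, p'⟩ hW ⟨x', y'⟩ hxy' ⟨r, r'⟩ hW' hq
    obtain ⟨h1, h2⟩ := Subgroup.mem_prod.1 hxy
    obtain ⟨h3, h4⟩ := hWS p p' hW
    obtain ⟨h5, h6⟩ := Subgroup.mem_prod.1 hxy'
    obtain ⟨h7, h8⟩ := hWS r r' hW'
    exact Prod.ext (comp_pro oS he hce h1 h5 h3 h7 (congrArg Prod.fst hq))
      (comp_pro oT hd hcd h2 h6 h4 h8 (congrArg Prod.snd hq))

/-- (3.2) for structures of elementary type -/
theorem etf (S : QStruct) (hE : ElemType S) :
    ∀ H W : Subgroup S.G, Pt S H W → W ≠ H → Co S W := by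
  induction hE with
  | L0 S h => exact fun H W hp hne => absurd (hp.old.triv (by omega) (by omega)) hne
  | L10 S h _ _ => exact fun H W hp hne => absurd (hp.old.triv (by omega) (by omega)) hne
  | L11 S h _ _ => exact fun H W hp hne => absurd (hp.old.triv (by omega) (by omega)) hne
  | L1 S h _ _ => exact fun H W hp hne => absurd (hp.old.triv (by omega) (by omega)) hne
  | loc S hf h h1 h2 => exact fun H W hp hne => absurd (hp.loc hf h h1 h2) hne
  | ext S _ _ => exact fun H W hp _ => hp.ext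
  | iso S T h1 _ ih =>
    obtain ⟨φ, hφn, hφ⟩ := h1
    exact fun H W hp hne => hp.iso φ hφn hφ hne (ih _ _)
  | prod S T hS hT ihS ihT =>
    intro H W hp hne
    by_cases hb : ∀ b : T.G, ((1, b) : S.G × T.G) ∈ H
    · exact hp.prodL hb hne ihS
    by_cases ha : ∀ a : S.G, ((a, 1) : S.G × T.G) ∈ H
    · apply hp.iso (S := QS.prod T S) (T := QS.prod S T) MulEquiv.prodComm (swap_neg S T)
        (fun a b c d => swap_q T S a b c d) hne
      intro hp' hne'
      exact hp'.prodL (fun b => ha b) hne' ihT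
    · push Not at ha hb
      exact hp.both hS hT ha hb hne

end Pool.Agent.ETCMR
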