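import Pool.Agent.ETCMR.Comm
import Pool.Agent.ETCMR.Etf2
import Pool.Agent.ETCM.Rec
import Pool.Agent.ETCP.QStr

/-!
# Structures with a rank one element, any `-1`: the theorem RK1
-/

set_option autoImplicit false
set_option linter.unusedSimpArgs false
set_option linter.unnecessarySeqFocus false
set_option linter.unusedSectionVars false
set_option linter.unusedVariables false

namespace Pool.Agent.ETCMR

open QS
open Pool.Agent.Helper58.PLine (QData)
open Pool.Agent.ETCP
open Pool.Agent.ETCR (N Z Wp not_Z_iff XC XCs SN mem_SN sat_N)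
open ETC (D)

/-- `S` is a product of two nontrivial structures -/
def IsProd (S : QStruct) : Prop :=
  ∃ A B : QStruct, 2 ≤ Nat.card A.G ∧ 2 ≤ Nat.card B.G ∧ Iso (prod A B) S

/-- `S` is a group extension -/
def IsExt (S : QStruct) : Prop := ∃ T : QStruct, Iso S (ext T)

theorem prod_of_sub (S : QStruct) [Finite S.G]
    {A B : Submodule (ZMod 2) (Additive S.G)} (hAB : IsCompl A B)
    (hc1 : ∀ a ∈ A, ∀ b ∈ B, C (ETC.toData S) a b)
    (hc2 : ∀ a ∈ A, ∀ b ∈ B, ∀ a' ∈ A, ∀ b' ∈ B, C (ETC.toData S) (a + b) (a' + b') →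
      C (ETC.toData S) a a' ∧ C (ETC.toData S) b b')
    (hA : ∃ x ∈ A, x ≠ 0) (hB : ∃ x ∈ B, x ≠ 0) : IsProd S := by
  obtain ⟨HA, hHA⟩ := zspan S A
  obtain ⟨HB, hHB⟩ := zspan S B
  have hcompl : IsCompl HA HB := by
    constructor
    · rw [Subgroup.disjoint_def]
      intro x h1 h2
      have := (Submodule.disjoint_def.1 hAB.disjoint) _ ((hHA x).1 h1) ((hHB x).1 h2)
      exact this
    · rw [codisjoint_iff, eq_top_iff]
      intro x _
      have : Additive.ofMul x ∈ A ⊔ B := by rw [hAB.sup_eq_top]; trivial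
      obtain ⟨a, ha, b, hb, hab⟩ := Submodule.mem_sup.1 this
      rw [Subgroup.mem_sup]
      exact ⟨Additive.toMul a, (hHA _).2 ha, Additive.toMul b, (hHB _).2 hb, hab⟩
  obtain ⟨a0, ha0, b0, hb0, hn⟩ : ∃ a0 ∈ HA, ∃ b0 ∈ HB, a0 * b0 = S.neg := by
    have : S.neg ∈ HA ⊔ HB := by rw [hcompl.sup_eq_top]; trivial
    exact Subgroup.mem_sup.1 this
  obtain ⟨SA, SB, φ, ψ, -, -, -, -, h5⟩ := ETCM.prodrec S HA HB hcompl ha0 hb0 hn (by
    intro a ha b hb a' ha' b' hb'
    have ha2 := (hHA a).1 ha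
    have hb2 := (hHB b).1 hb
    have ha2' := (hHA a').1 ha'
    have hb2' := (hHB b').1 hb'
    constructor
    · intro h
      exact hc2 _ ha2 _ hb2 _ ha2' _ hb2' h
    · rintro ⟨h1, h2⟩
      have k1 : C (ETC.toData S) (Additive.ofMul a) (Additive.ofMul a') := h1
      have k2 : C (ETC.toData S) (Additive.ofMul b) (Additive.ofMul b') := h2
      exact (k1.add (hc1 _ ha2 _ hb2')).add' ((hc1 _ ha2' _ hb2).symm.add k2))
  refine ⟨SA, SB, ?_, ?_, h5⟩
  · rw [Nat.card_congr φ.toEquiv]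
    apply two_le_card HA
    obtain ⟨x, hx, hx0⟩ := hA
    exact ⟨Additive.toMul x, (hHA _).2 hx, hx0⟩
  · rw [Nat.card_congr ψ.toEquiv]
    apply two_le_card HB
    obtain ⟨x, hx, hx0⟩ := hB
    exact ⟨Additive.toMul x, (hHB _).2 hx, hx0⟩

/-- the structure on a subgroup `A` with the twisted pairing `q(a, j b)` -/
def tw (S : QStruct) (A : Subgroup S.G) (j : S.G →* S.G) (e0 : A)
    (hs : ∀ a ∈ A, ∀ b ∈ A, S.q a (j b) = S.q b (j a))
    (hd : ∀ a ∈ A, S.q a (j ((e0 : S.G) * a)) = S.zero)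
    (h4 : ∀ a ∈ A, ∀ b ∈ A, ∀ c ∈ A, ∀ d ∈ A, S.q a (j b) = S.q c (j d) →
      ∃ x ∈ A, S.q a (j b) = S.q a (j x) ∧ S.q c (j d) = S.q c (j x)) : QStruct where
  G := A
  Q := {β : S.Q // ∃ a b : A, S.q a (j b) = β}
  neg := e0
  zero := ⟨S.zero, 1, 1, by
    show S.q 1 (j 1) = S.zero
    rw [map_one, S.q_one]⟩
  q := fun a b => ⟨S.q a (j b), a, b, rfl⟩
  exp_two := fun a => Subtype.ext (S.exp_two a)
  surj := by
    rintro ⟨β, a, b, h⟩
    exact ⟨a, b, Subtype.ext h⟩
  qs1 := fun a => by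
    apply Subtype.ext
    exact hd (a : S.G) a.2
  qs2 := fun a b => Subtype.ext (hs a a.2 b b.2)
  qs3 := by
    intro a b c
    rw [Subtype.mk.injEq, Subtype.mk.injEq]
    rw [S.qs3, ← map_mul]
    rfl
  qs4 := by
    intro a b c d h
    obtain ⟨x, hx, h1, h2⟩ := h4 a a.2 b b.2 c c.2 d d.2 (congrArg Subtype.val h)
    exact ⟨⟨x, hx⟩, Subtype.ext h1, Subtype.ext h2⟩

theorem tw_zero_iff (S : QStruct) (A : Subgroup S.G) (j : S.G →* S.G) (e0 : A)
    (hs : ∀ a ∈ A, ∀ b ∈ A, S.q a (j b) = S.q b (j a))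
    (hd : ∀ a ∈ A, S.q a (j ((e0 : S.G) * a)) = S.zero)
    (h4 : ∀ a ∈ A, ∀ b ∈ A, ∀ c ∈ A, ∀ d ∈ A, S.q a (j b) = S.q c (j d) →
      ∃ x ∈ A, S.q a (j b) = S.q a (j x) ∧ S.q c (j d) = S.q c (j x)) (x y : A) :
    (tw S A j e0 hs hd h4).q x y = (tw S A j e0 hs hd h4).zero ↔
      S.q (x : S.G) (j (y : S.G)) = S.zero := by
  show (⟨S.q (x : S.G) (j (y : S.G)), _⟩ : {β : S.Q // ∃ a b : A, S.q a (j b) = β}) =
    ⟨S.zero, _⟩ ↔ _
  rw [Subtype.mk.injEq]

/-- a linear map of `Additive S.G` as a homomorphism of `S.G` -/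
def lm (S : QStruct) (L : Additive S.G →ₗ[ZMod 2] Additive S.G) : S.G →* S.G where
  toFun := fun x => Additive.toMul (L (Additive.ofMul x))
  map_one' := by
    show Additive.toMul (L 0) = 1
    rw [map_zero]; rfl
  map_mul' := fun x y => by
    show Additive.toMul (L (Additive.ofMul x + Additive.ofMul y)) = _
    rw [map_add]; rfl

theorem lm_apply (S : QStruct) (L : Additive S.G →ₗ[ZMod 2] Additive S.G) (x : S.G) :
    lm S L x = Additive.toMul (L (Additive.ofMul x)) := rfl

/-- a linear map of `Additive S.G` -/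
def gP (S : QStruct) (s : Additive S.G) (g : D (Additive S.G)) :
    Additive S.G →ₗ[ZMod 2] Additive S.G :=
  LinearMap.id + g.smulRight s

theorem gP_apply (S : QStruct) (s : Additive S.G) (g : D (Additive S.G)) (v : Additive S.G) :
    gP S s g v = v + g v • s := rfl

/-- the commutative case -/
theorem case2 (S : QStruct) [Finite S.G]
    (hT : ∀ T : QStruct, Finite T.G → Nat.card T.G < Nat.card S.G → ElemType T)
    {c : S.Q} {s : Additive S.G} {f : Additive S.G →ₗ[ZMod 2] ZMod 2}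
    (X : One (ETC.toData S) s c f)
    (hcomm : ∀ t t', XC (ETC.toData S) c t → XC (ETC.toData S) c t' → C (ETC.toData S) t t') :
    IsExt S ∨ IsProd S := by
  have hfin : Finite (Additive S.G) := (inferInstance : Finite S.G)
  have := Fintype.ofFinite (Additive S.G)
  have hW : ∀ u, f u = 0 → Wp (ETC.toData S) f u → u ∈ X.W0 :=
    fun u hu hw => (X.mem_W0' hcomm).2 ⟨hu, hw⟩
  by_cases hW0 : ∀ w ∈ X.W0, w = 0
  · -- every element outside `ker f` is rigid
    left
    have hrig : ∀ v : Additive S.G, f v = 1 → ∀ z, C (ETC.toData S) v z →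
        z = 0 ∨ z = v + (ETC.toData S).e := by
      intro v hv z hz
      rcases ETC.zm (f z) with h | h
      · left
        exact hW0 z (hW z h ⟨v, hv, hz.symm⟩)
      · right
        have h1 : C (ETC.toData S) v (v + (ETC.toData S).e + z) :=
          C.add (S := ETC.toData S) ((ETC.toData S).diag v) hz
        have h2 : f (v + (ETC.toData S).e + z) = 0 := by
          rw [map_add, map_add, hv, X.fe, h]; decide
        exact (eo (hW0 _ (hW _ h2 ⟨v, hv, h1.symm⟩))).symm
    obtain ⟨v, hv⟩ := X.hf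
    have hve : f (v + (ETC.toData S).e) = 1 := by rw [map_add, hv, X.fe, add_zero]
    refine ETCC.ext_of_bir (z := Additive.toMul v) ⟨?_, ?_, ?_, ?_⟩
    · intro e
      have e' : v = 0 := e
      rw [e', map_zero] at hv
      exact zero_ne_one hv
    · intro e
      have e' : v = (ETC.toData S).e := e
      rw [e', X.fe] at hv
      exact zero_ne_one hv
    · intro z hz
      rcases hrig v hv (Additive.ofMul z) hz with h | h
      · exact Or.inl h
      · right
        rw [mul_comm]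
        exact h
    · intro z hz
      have h1 : C (ETC.toData S) (v + (ETC.toData S).e) (Additive.ofMul z) := by
        have h2 : S.q (S.neg * Additive.toMul v) z = S.zero := hz
        rw [mul_comm] at h2
        exact h2
      rcases hrig _ hve (Additive.ofMul z) h1 with h | h
      · exact Or.inl h
      · right
        have h2 : z = Additive.toMul v * S.neg * S.neg := h
        rw [h2, mul_comm (S.neg) (S.neg * Additive.toMul v), mul_comm S.neg]
  right
  push Not at hW0
  obtain ⟨g, hgs, hg⟩ := ETC.exists_dual_sep X.s_notMem_W0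
  obtain ⟨U, hU⟩ := zspan S (LinearMap.ker g)
  obtain ⟨HF, hHF⟩ := zspan S (LinearMap.ker f)
  obtain ⟨HW, hHW⟩ := zspan S X.W0
  obtain ⟨j, hj⟩ : ∃ j : S.G →* S.G, ∀ x, Additive.ofMul (j x) =
      One.tL (ETC.toData S) s f g (Additive.ofMul x) :=
    ⟨lm S (One.tL (ETC.toData S) s f g), fun x => rfl⟩
  have hCj : ∀ a b : S.G, S.q a (j b) = (ETC.toData S).q (Additive.ofMul a)
      (One.tL (ETC.toData S) s f g (Additive.ofMul b)) := by
    intro a b
    rw [← hj b]; rfl
  have hs' : ∀ a ∈ U, ∀ b ∈ U, S.q a (j b) = S.q b (j a) := by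
    intro a _ b _
    rw [hCj, hCj]
    exact X.tsymm g _ _
  obtain ⟨e0, he0, he0U⟩ : ∃ e0 : S.G, Additive.ofMul e0 =
      (ETC.toData S).e + (g (ETC.toData S).e) • s ∧ e0 ∈ U := by
    refine ⟨Additive.toMul ((ETC.toData S).e + (g (ETC.toData S).e) • s), rfl, ?_⟩
    rw [hU]
    show g ((ETC.toData S).e + (g (ETC.toData S).e) • s) = 0
    rw [map_add, map_smul, hgs, smul_eq_mul, mul_one, ZModModule.add_self]
  have hd' : ∀ a ∈ U, S.q a (j (((⟨e0, he0U⟩ : U) : S.G) * a)) = S.zero := by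
    intro a _
    rw [hCj]
    have := X.tdiag g (Additive.ofMul a)
    rw [← he0] at this
    exact this
  have h4 : ∀ a ∈ U, ∀ b ∈ U, ∀ c ∈ U, ∀ d ∈ U, S.q a (j b) = S.q c (j d) →
      ∃ x ∈ U, S.q a (j b) = S.q a (j x) ∧ S.q c (j d) = S.q c (j x) := by
    intro a ha b hb c' hc' d hd h
    obtain ⟨x, hx, h1, h2⟩ := X.tlink hW hg hgs (Additive.ofMul a) ((hU a).1 ha)
      (Additive.ofMul b) ((hU b).1 hb) (Additive.ofMul c') ((hU c').1 hc')
      (Additive.ofMul d) ((hU d).1 hd) (by rw [← hCj, ← hCj]; exact h)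
    refine ⟨Additive.toMul x, (hU _).2 hx, ?_, ?_⟩
    · rw [hCj, hCj]; exact h1
    · rw [hCj, hCj]; exact h2
  obtain ⟨T, eT⟩ : ∃ T, T = tw S U j ⟨e0, he0U⟩ hs' hd' h4 := ⟨_, rfl⟩
  have hz := tw_zero_iff S U j ⟨e0, he0U⟩ hs' hd' h4
  have hUt : U ≠ ⊤ := by
    intro e
    have : Additive.toMul s ∈ U := by rw [e]; trivial
    have h5 : g s = 0 := (hU _).1 this
    rw [hgs] at h5
    exact one_ne_zero h5
  have hTE : ElemType (tw S U j ⟨e0, he0U⟩ hs' hd' h4) := by
    apply hT
    · exact (inferInstance : Finite U)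
    · have h5 : Nat.card U ≤ Nat.card S.G := Subgroup.card_le_card_group U
      have h6 : Nat.card U ≠ Nat.card S.G := by
        intro e
        exact hUt (Subgroup.eq_top_of_card_eq U e)
      exact lt_of_le_of_ne h5 h6
  -- the subgroups of `T`
  have hmF : ∀ a : U, a ∈ HF.comap U.subtype ↔ f (Additive.ofMul (a : S.G)) = 0 :=
    fun a => hHF a
  have hmW : ∀ a : U, a ∈ HW.comap U.subtype ↔ Additive.ofMul (a : S.G) ∈ X.W0 :=
    fun a => hHW a
  have hgU : ∀ a : U, g (Additive.ofMul (a : S.G)) = 0 := fun a => (hU a).1 a.2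
  have f1 : ∀ x, ¬ f x = 0 → f x = 1 := fun x h => (ETC.zm (f x)).resolve_left h
  have hC : ∀ a b : U, (tw S U j ⟨e0, he0U⟩ hs' hd' h4).q a b =
      (tw S U j ⟨e0, he0U⟩ hs' hd' h4).zero ↔ C (ETC.toData S) (Additive.ofMul (a : S.G))
        (One.tL (ETC.toData S) s f g (Additive.ofMul (b : S.G))) := by
    intro a b
    rw [hz a b, hCj]
    rfl
  have hPt : Pt (tw S U j ⟨e0, he0U⟩ hs' hd' h4) (HF.comap U.subtype) (HW.comap U.subtype) := by
    refine ⟨?_, ?_, ?_, ?_, ?_, ?_⟩
    · obtain ⟨v, hv⟩ := X.hf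
      rcases ETC.zm (g v) with hgv | hgv
      · refine ⟨⟨Additive.toMul v, (hU _).2 hgv⟩, fun e => ?_⟩
        have h5 : f v = 0 := (hmF _).1 e
        rw [hv] at h5
        exact one_ne_zero h5
      · refine ⟨⟨Additive.toMul (v + s), (hU _).2 (by
          show g (v + s) = 0
          rw [map_add, hgv, hgs]; decide)⟩, fun e => ?_⟩
        have h5 : f (v + s) = 0 := (hmF _).1 e
        rw [map_add, hv, X.fs] at h5
        exact one_ne_zero h5
    · intro a b ha hb
      have ha' := f1 _ (fun e => ha ((hmF a).2 e))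
      have hb' := f1 _ (fun e => hb ((hmF b).2 e))
      apply (hmF (a * b)).2
      show f (Additive.ofMul ((show U from a) : S.G) + Additive.ofMul ((show U from b) : S.G)) = 0
      rw [map_add, ha', hb']; decide
    · apply (hmF ⟨e0, he0U⟩).2
      show f (Additive.ofMul e0) = 0
      rw [he0, map_add, map_smul, X.fs, X.fe, smul_zero, add_zero]
    · intro a ha
      exact (hmF a).2 (X.W0_f ((hmW a).1 ha))
    · intro t h ht hh hq
      have ht' := f1 _ (fun e => ht ((hmF t).2 e))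
      apply (hmW h).2
      have hh' := (hmF h).1 hh
      apply hW _ hh'
      have h5 := (hC t h).1 hq
      rw [One.tL_zero hh'] at h5
      exact ⟨_, ht', h5.symm⟩
    · intro t w ht hw
      have ht' := f1 _ (fun e => ht ((hmF t).2 e))
      obtain ⟨v, hgv, hv, h1, h2⟩ := X.tpartner hW hg hgs ht' (hgU t) ((hmW w).1 hw)
      refine ⟨⟨Additive.toMul v, (hU _).2 hgv⟩, fun e => ?_, ?_, ?_⟩
      · have h5 : f v = 0 := (hmF _).1 e
        rw [hv] at h5
        exact one_ne_zero h5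
      · exact (hC t ⟨Additive.toMul v, (hU _).2 hgv⟩).2 h1
      · exact (hC w ⟨Additive.toMul v, (hU _).2 hgv⟩).2 h2
  have hne : HW.comap U.subtype ≠ HF.comap U.subtype := by
    intro e
    have key : ∀ x, g x = 0 → ¬ X.N0 x := by
      intro x hx h0
      have h5 : (⟨Additive.toMul x, (hU _).2 hx⟩ : U) ∈ HF.comap U.subtype :=
        (hmF _).2 (X.N_f h0.1)
      rw [← e, hmW] at h5
      exact (not_Z_iff.2 h5.2) h0.2
    obtain ⟨x, hx⟩ := X.exists_N0 hcomm
    rcases ETC.zm (g x) with h | h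
    · exact key x h hx
    · exact key (x + s) (by rw [map_add, h, hgs]; decide) (X.N0_add_s.2 hx)
  obtain ⟨Y, hYdis, hYcov, hYcom, hYpro⟩ : ∃ Y : Subgroup U,
      (∀ x ∈ Y, x ∈ HW.comap U.subtype → x = 1) ∧
      (∀ u : U, ∃ y ∈ Y, ∃ w ∈ HW.comap U.subtype, u = y * w) ∧
      (∀ y ∈ Y, ∀ w ∈ HW.comap U.subtype, C (ETC.toData S) (Additive.ofMul (y : S.G))
        (One.tL (ETC.toData S) s f g (Additive.ofMul (w : S.G)))) ∧
      (∀ y ∈ Y, ∀ w ∈ HW.comap U.subtype, ∀ y' ∈ Y, ∀ w' ∈ HW.comap U.subtype,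
        C (ETC.toData S) (Additive.ofMul ((y * w : U) : S.G))
        (One.tL (ETC.toData S) s f g (Additive.ofMul ((y' * w' : U) : S.G))) →
        C (ETC.toData S) (Additive.ofMul (w : S.G))
        (One.tL (ETC.toData S) s f g (Additive.ofMul (w' : S.G)))) := by
    obtain ⟨Y, hY⟩ := etf _ hTE _ _ hPt hne
    exact ⟨Y, hY.dis, hY.cov, fun y hy w hw => (hC y w).1 (hY.com y hy w hw),
      fun y hy w hw y' hy' w' hw' h => (hC w w').1 (hY.pro y hy w hw y' hy' w' hw'
        ((hC (y * w) (y' * w')).2 h))⟩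
  -- the subspace of `V` over `Y`
  have hπ : ∀ v : Additive S.G, Additive.toMul (gP S s g v) ∈ U := by
    intro v
    rw [hU]
    show g (gP S s g v) = 0
    rw [gP_apply, map_add, map_smul, hgs, smul_eq_mul, mul_one, ZModModule.add_self]
  let π : Additive S.G → U := fun v => ⟨Additive.toMul (gP S s g v), hπ v⟩
  have π_add : ∀ v v', π (v + v') = π v * π v' := by
    intro v v'
    apply Subtype.ext
    show Additive.toMul (gP S s g (v + v')) = _
    rw [map_add]; rfl
  have π_zero : π 0 = 1 := by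
    apply Subtype.ext
    show Additive.toMul (gP S s g 0) = _
    rw [map_zero]; rfl
  have π_val : ∀ v, Additive.ofMul ((π v : U) : S.G) = v + g v • s := fun v => rfl
  have π_ker : ∀ v (hv : g v = 0), π v = ⟨Additive.toMul v, (hU _).2 hv⟩ := by
    intro v hv
    apply Subtype.ext
    show Additive.toMul (gP S s g v) = Additive.toMul v
    rw [gP_apply, hv, zero_smul, add_zero]
  let YY : Submodule (ZMod 2) (Additive S.G) :=
    { carrier := {v | π v ∈ Y}
      add_mem' := fun {a b} ha hb => by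
        show π (a + b) ∈ Y
        rw [π_add]; exact Y.mul_mem ha hb
      zero_mem' := by
        show π 0 ∈ Y
        rw [π_zero]; exact Y.one_mem
      smul_mem' := by
        intro a x hx
        rcases ETC.zm a with rfl | rfl
        · rw [zero_smul]
          show π 0 ∈ Y
          rw [π_zero]; exact Y.one_mem
        · rw [one_smul]; exact hx }
  have mYY : ∀ v, v ∈ YY ↔ π v ∈ Y := fun v => Iff.rfl
  have wW : ∀ w ∈ X.W0, π w ∈ HW.comap U.subtype := by
    intro w hw
    rw [hmW, π_val, hg w hw, zero_smul, add_zero]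
    exact hw
  have hdesc : ∀ v v', C (ETC.toData S) v v' → C (ETC.toData S)
      (Additive.ofMul ((π v : U) : S.G))
      (One.tL (ETC.toData S) s f g (Additive.ofMul ((π v' : U) : S.G))) := by
    intro v v' h
    rw [π_val, π_val]
    exact X.tdesc hW hg hgs h
  have hπs : π s = 1 := by
    apply Subtype.ext
    show Additive.toMul (gP S s g s) = _
    rw [gP_apply, hgs, one_smul, ZModModule.add_self]; rfl
  have hcYW : ∀ a ∈ YY, ∀ b ∈ X.W0, C (ETC.toData S) a b := by
    intro a ha b hb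
    have h1 := hYcom (π a) ha (π b) (wW b hb)
    rw [π_val, π_val, hg b hb, zero_smul, add_zero, One.tL_zero (X.W0_f hb)] at h1
    have h2 : C (ETC.toData S) s b := X.f_iff.2 (X.W0_f hb)
    rcases ETC.zm (g a) with k | k
    · rw [k, zero_smul, add_zero] at h1; exact h1
    · rw [k, one_smul] at h1
      exact (h1.add' h2).of_eq (eo (by abel_nf <;> simp only [ch2, ch3, ch4, ch5, ch6, add_zero, zero_add])) rfl
  refine prod_of_sub S (A := YY) (B := X.W0) ⟨?_, ?_⟩ hcYW ?_ ⟨s, ?_, ?_⟩ ?_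
  · rw [Submodule.disjoint_def]
    intro x hx hxW
    have h1 := hYdis (π x) hx (wW x hxW)
    have h2 := π_val x
    rw [h1, hg x hxW, zero_smul, add_zero] at h2
    exact h2.symm
  · rw [codisjoint_iff, eq_top_iff]
    intro v _
    obtain ⟨y, hy, w, hw, e⟩ := hYcov (π v)
    rw [Submodule.mem_sup]
    have hwW : Additive.ofMul ((w : U) : S.G) ∈ X.W0 := (hmW w).1 hw
    have hπw : π (Additive.ofMul ((w : U) : S.G)) = w := by
      rw [π_ker _ (hg _ hwW)]
      rfl
    refine ⟨v + Additive.ofMul ((w : U) : S.G), ?_, _, hwW, ?_⟩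
    · rw [mYY, π_add, hπw, e]
      have h3 : y * w * w = y := by
        rw [mul_assoc, show w * w = 1 from Subtype.ext (S.exp_two (w : S.G)), mul_one]
      rw [h3]
      exact hy
    · rw [add_assoc, ZModModule.add_self, add_zero]
  · intro a ha b hb a' ha' b' hb' h
    have h1 := hdesc _ _ h
    rw [π_add, π_add] at h1
    have h2 := hYpro (π a) ha (π b) (wW b hb) (π a') ha' (π b') (wW b' hb') h1
    rw [π_val, π_val, hg b hb, hg b' hb', zero_smul, add_zero, add_zero,
      One.tL_zero (X.W0_f hb')] at h2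
    have h3 : C (ETC.toData S) (a + b) b' := (hcYW a ha b' hb').add' h2
    have h4' : C (ETC.toData S) (a + b) a' :=
      (h.add h3).of_eq rfl (eo (by abel_nf <;> simp only [ch2, ch3, ch4, ch5, ch6, add_zero, zero_add]))
    have h5 : C (ETC.toData S) a a' :=
      (h4'.add' (hcYW a' ha' b hb).symm).of_eq (eo (by abel_nf <;> simp only [ch2, ch3, ch4, ch5, ch6, add_zero, zero_add])) rfl
    exact ⟨h5, h2⟩
  · rw [mYY, hπs]
    exact Y.one_mem
  · rintro rfl
    exact X.s_notMem_W0 (zero_mem _)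
  · exact hW0

end Pool.Agent.ETCMR
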